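import Mathlib
import Pool.Agent.Y820.LB.Res

/-!
# Sums of simple fractions composed with a Laurent polynomial

`∫ log (1 + |∑ w_j / (h(z) - a_j z ^ m)|)` over the unit circle is bounded in terms of `h`, `m` and
`∑ |w_j|` alone.
-/

set_option autoImplicit false

namespace Pool.Agent.Y820.LB

open MeasureTheory Polynomial Filter
open Pool.Agent.H261R2.CM (ez D_norm_ez)
open Pool.Agent.W242.IM (ae_eval_ne)

noncomputable section

/-- `z ^ (m+1)` times the derivative of `h / z ^ m` -/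
def kp (h : ℂ[X]) (m : ℕ) : ℂ[X] := X * derivative h - C (m : ℂ) * h

/-- `h - a z ^ m` -/
def fp (h : ℂ[X]) (m : ℕ) (a : ℂ) : ℂ[X] := h - C a * X ^ m

theorem kp_eq (h : ℂ[X]) (m : ℕ) (a : ℂ) :
    kp h m = X * derivative (fp h m a) - C (m : ℂ) * fp h m a := by
  unfold kp fp
  rw [derivative_sub, derivative_C_mul, derivative_X_pow]
  rcases Nat.eq_zero_or_pos m with rfl | hm
  · simp
  · obtain ⟨k, rfl⟩ := Nat.exists_eq_add_of_le' hm
    simp only [Nat.add_sub_cancel, pow_succ]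
    ring

theorem fp_ne (h : ℂ[X]) (m : ℕ) (a : ℂ) (hk : kp h m ≠ 0) : fp h m a ≠ 0 := by
  intro h0
  apply hk
  rw [kp_eq h m a, h0]
  simp

theorem fp_natDegree (h : ℂ[X]) (m : ℕ) (a : ℂ) : (fp h m a).natDegree ≤ max h.natDegree m := by
  unfold fp
  refine (natDegree_sub_le _ _).trans (max_le_max le_rfl ?_)
  exact natDegree_C_mul_X_pow_le _ _

theorem fp_eval (h : ℂ[X]) (m : ℕ) (a z : ℂ) : (fp h m a).eval z = h.eval z - a * z ^ m := by
  simp [fp]

theorem kp_div (h : ℂ[X]) (m : ℕ) (a z : ℂ) (hz : (fp h m a).eval z ≠ 0) :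
    (kp h m).eval z / (fp h m a).eval z =
      z * ∑ x : (fp h m a).roots, 1 / (z - (x : ℂ)) - m := by
  have h1 : ∑ x : (fp h m a).roots, 1 / (z - (x : ℂ)) =
      ((fp h m a).roots.map fun y => 1 / (z - y)).sum :=
    congrArg Multiset.sum (Multiset.map_univ (fp h m a).roots (fun y => 1 / (z - y)))
  rw [h1, ← (IsAlgClosed.splits (fp h m a)).eval_derivative_div_eval_of_ne_zero hz, kp_eq h m a]
  simp only [eval_sub, eval_mul, eval_X, eval_C]
  field_simp

/-- the constant of the substitution -/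
def subC (h : ℂ[X]) (m : ℕ) (L : ℝ) : ℝ :=
  8 * (Real.log 2 + Real.log (1 + L * (max h.natDegree m : ℕ))) + (Real.log (1 + m * L) +
    ∫ t in (0:ℝ)..1, |Real.log ‖(kp h m).eval (ez t)‖|)

variable {ι : Type} [Fintype ι]

theorem dom_sub (h : ℂ[X]) (m : ℕ) (hk : kp h m ≠ 0) (L : ℝ) (a w : ι → ℂ)
    (hL : ∑ j, ‖w j‖ ≤ L) :
    Dom (fun t => ‖∑ j, w j / (h.eval (ez t) - a j * ez t ^ m)‖) (subC h m L) := by
  classical
  have hL0 : 0 ≤ L := le_trans (Finset.sum_nonneg fun j _ => norm_nonneg _) hL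
  have hs : ∑ x : (Σ j : ι, ((fp h m (a j)).roots : Multiset ℂ)), ‖w x.1‖ ≤
      L * (max h.natDegree m : ℕ) := by
    rw [Fintype.sum_sigma]
    simp only [Finset.sum_const, Finset.card_univ, Multiset.card_coe, nsmul_eq_mul]
    calc ∑ j, ((fp h m (a j)).roots.card : ℝ) * ‖w j‖
        ≤ ∑ j, ((max h.natDegree m : ℕ) : ℝ) * ‖w j‖ := by
          refine Finset.sum_le_sum fun j _ => mul_le_mul_of_nonneg_right ?_ (norm_nonneg _)
          exact_mod_cast (card_roots' _).trans (fp_natDegree h m (a j))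
      _ = ((max h.natDegree m : ℕ) : ℝ) * ∑ j, ‖w j‖ := by rw [Finset.mul_sum]
      _ ≤ ((max h.natDegree m : ℕ) : ℝ) * L := mul_le_mul_of_nonneg_left hL (Nat.cast_nonneg _)
      _ = _ := mul_comm _ _
  obtain ⟨g, hg1, hg2, hg3⟩ := dom_frac
    (fun x : (Σ j : ι, ((fp h m (a j)).roots : Multiset ℂ)) => (x.2 : ℂ)) (fun x => w x.1) _ hs
  have hi2 : IntervalIntegrable (fun t => |Real.log ‖(kp h m).eval (ez t)‖|) volume 0 1 :=
    (integrable_log (kp h m)).norm
  refine ⟨fun t => g t + (Real.log (1 + m * L) + |Real.log ‖(kp h m).eval (ez t)‖|),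
    hg1.add (intervalIntegrable_const.add hi2), ?_, ?_⟩
  · have hall : ∀ᵐ t : ℝ, ∀ j, (fp h m (a j)).eval (ez t) ≠ 0 :=
      ae_all_iff.mpr fun j => ae_eval_ne _ (fp_ne h m (a j) hk)
    filter_upwards [hg2, hall, ae_eval_ne _ hk] with t h1 h2 h3
    refine ⟨norm_nonneg _, ?_⟩
    set z := ez t with hz
    set F := ∑ j, w j / (h.eval z - a j * z ^ m) with hF
    set G := ∑ x : (Σ j : ι, ((fp h m (a j)).roots : Multiset ℂ)), w x.1 / (z - (x.2 : ℂ)) with hG
    have e1 : (kp h m).eval z * F = z * G - m * ∑ j, w j := by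
      rw [hF, hG, Finset.mul_sum, Fintype.sum_sigma, Finset.mul_sum, Finset.mul_sum,
        ← Finset.sum_sub_distrib]
      refine Finset.sum_congr rfl fun j _ => ?_
      rw [← fp_eval]
      have e2 := kp_div h m (a j) z (h2 j)
      calc (kp h m).eval z * (w j / (fp h m (a j)).eval z)
          = w j * ((kp h m).eval z / (fp h m (a j)).eval z) := by ring
        _ = w j * (z * ∑ x : (fp h m (a j)).roots, 1 / (z - (x : ℂ)) - m) := by rw [e2]
        _ = z * (w j * ∑ x : (fp h m (a j)).roots, 1 / (z - (x : ℂ))) - m * w j := by ring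
        _ = _ := by
          rw [Finset.mul_sum]
          simp only [mul_one_div]
    have e3 : ‖(kp h m).eval z * F‖ ≤ ‖G‖ + m * L := by
      rw [e1]
      refine (norm_sub_le _ _).trans (add_le_add (le_of_eq ?_) ?_)
      · rw [norm_mul, hz, D_norm_ez, one_mul]
      · rw [norm_mul, Complex.norm_natCast]
        exact mul_le_mul_of_nonneg_left ((norm_sum_le _ _).trans hL) (Nat.cast_nonneg _)
    have e4 : 0 < ‖(kp h m).eval z‖ := norm_pos_iff.mpr h3
    have hmL : (0 : ℝ) ≤ m * L := mul_nonneg (Nat.cast_nonneg _) hL0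
    set κ := ‖(kp h m).eval z‖ with hκ
    have e5 : κ * ‖F‖ ≤ ‖G‖ + m * L := by rw [hκ, ← norm_mul]; exact e3
    have e6 : 1 + ‖F‖ ≤ (1 + ‖G‖) * ((1 + m * L) * Real.exp |Real.log κ|) := by
      have e7 : 1 ≤ Real.exp |Real.log κ| := Real.one_le_exp (abs_nonneg _)
      have e8 : 1 ≤ κ * Real.exp |Real.log κ| := by
        calc (1 : ℝ) = κ * Real.exp (-Real.log κ) := by
              rw [Real.exp_neg, Real.exp_log e4, mul_inv_cancel₀ e4.ne']
          _ ≤ _ := mul_le_mul_of_nonneg_left (Real.exp_le_exp.mpr (neg_le_abs _)) e4.le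
      have e9 : ‖F‖ ≤ (‖G‖ + m * L) * Real.exp |Real.log κ| := by
        calc ‖F‖ = 1 * ‖F‖ := (one_mul _).symm
          _ ≤ (κ * Real.exp |Real.log κ|) * ‖F‖ :=
            mul_le_mul_of_nonneg_right e8 (norm_nonneg _)
          _ = (κ * ‖F‖) * Real.exp |Real.log κ| := by ring
          _ ≤ _ := mul_le_mul_of_nonneg_right e5 (by positivity)
      have e10 : (0 : ℝ) ≤ ‖G‖ * (m * L) := mul_nonneg (norm_nonneg _) hmL
      have e11 : (1 + (‖G‖ + m * L)) * Real.exp |Real.log κ| ≤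
          (1 + ‖G‖) * ((1 + m * L) * Real.exp |Real.log κ|) := by
        have e12 : (1 + (‖G‖ + m * L)) ≤ (1 + ‖G‖) * (1 + m * L) := by nlinarith
        calc (1 + (‖G‖ + m * L)) * Real.exp |Real.log κ|
            ≤ ((1 + ‖G‖) * (1 + m * L)) * Real.exp |Real.log κ| :=
              mul_le_mul_of_nonneg_right e12 (by positivity)
          _ = _ := by ring
      nlinarith
    have e13 : 0 < 1 + ‖F‖ := by positivity
    have e14 : (0:ℝ) < 1 + m * L := by linarith
    have e15 : (0:ℝ) < 1 + ‖G‖ := by positivity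
    refine (Real.log_le_log e13 e6).trans ?_
    rw [Real.log_mul e15.ne' (by positivity), Real.log_mul e14.ne' (by positivity), Real.log_exp]
    linarith [h1.2]
  · rw [intervalIntegral.integral_add hg1 (intervalIntegrable_const.add hi2),
      intervalIntegral.integral_add intervalIntegrable_const hi2]
    unfold subC
    simp only [intervalIntegral.integral_const, sub_zero, smul_eq_mul, one_mul]
    linarith

end

end Pool.Agent.Y820.LB
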