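import Mathlib
import Pool.Agent.Y820.LB.Mat

/-!
# Polynomials with bounded residues
-/

set_option autoImplicit false

namespace Pool.Agent.Y820.LB

open MeasureTheory Polynomial Filter
open Pool.Agent.H261R2.CM
open Pool.Agent.W242.IM (ae_eval_ne)

noncomputable section

/-- partial fractions -/
theorem frac_eq (P Q : ℂ[X]) (hnd : P.roots.Nodup) (hdeg : Q.degree < P.degree) (x : ℂ)
    (hx : P.eval x ≠ 0) :
    Q.eval x = P.eval x *
      ∑ a ∈ P.roots.toFinset, (Q.eval a / (derivative P).eval a) / (x - a) := by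
  have hP : P ≠ 0 := by
    rintro rfl
    simp at hx
  set s := P.roots.toFinset with hs
  have hval : s.val = P.roots := by
    rw [hs, Multiset.toFinset_val, Multiset.dedup_eq_self.mpr hnd]
  have hnod : P = C P.leadingCoeff * Lagrange.nodal s id := by
    conv_lhs => rw [(IsAlgClosed.splits P).eq_prod_roots]
    congr 1
    unfold Lagrange.nodal
    rw [Finset.prod_eq_multiset_prod, hval]
    rfl
  have hlc : P.leadingCoeff ≠ 0 := leadingCoeff_ne_zero.mpr hP
  have hcard : P.degree = s.card := by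
    rw [Finset.card_def, hval, ← (IsAlgClosed.splits P).natDegree_eq_card_roots,
      degree_eq_natDegree hP]
  have hQ : Q = Lagrange.interpolate s id fun i => Q.eval i :=
    Lagrange.eq_interpolate (Set.injOn_id _) (by rw [← hcard]; exact hdeg)
  have hne : ∀ i ∈ s, x ≠ id i := by
    intro i hi h0
    apply hx
    rw [h0, id]
    exact (mem_roots hP).mp (Multiset.mem_toFinset.mp hi)
  have h1 := Lagrange.eval_interpolate_not_at_node (fun i => Q.eval i) hne
  rw [← hQ] at h1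
  rw [h1]
  have h2 : P.eval x = P.leadingCoeff * (Lagrange.nodal s id).eval x := by
    conv_lhs => rw [hnod]
    simp
  have h3 : ∀ a, (derivative P).eval a =
      P.leadingCoeff * (derivative (Lagrange.nodal s id)).eval a := by
    intro a
    conv_lhs => rw [hnod]
    simp
  rw [h2, mul_comm P.leadingCoeff, mul_assoc, Finset.mul_sum (a := P.leadingCoeff)]
  congr 1
  refine Finset.sum_congr rfl fun a ha => ?_
  rw [Lagrange.nodalWeight_eq_eval_derivative_nodal ha, h3, div_div, mul_div_assoc']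
  simp only [id]
  rw [mul_assoc P.leadingCoeff, mul_div_mul_left _ _ hlc, div_eq_mul_inv, mul_inv]
  ring

/-- `z ^ (m N) P(h(z) / z ^ m)` for polynomials `P` of degree at most `N` -/
def hom (h : ℤ[X]) (m N : ℕ) (P : ℤ[X]) : ℤ[X] :=
  ∑ k ∈ Finset.range (N + 1), C (P.coeff k) * h ^ k * X ^ (m * (N - k))

theorem hom_eval (h : ℤ[X]) (m N : ℕ) (P : ℤ[X]) (hN : P.natDegree ≤ N) (z : ℂ) (hz : z ≠ 0) :
    (toC (hom h m N P)).eval z = z ^ (m * N) * (toC P).eval ((toC h).eval z / z ^ m) := by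
  have h1 : (toC P).natDegree < N + 1 := by
    unfold toC
    exact Nat.lt_succ_of_le ((natDegree_map_le).trans hN)
  rw [eval_eq_sum_range' h1, Finset.mul_sum]
  unfold hom toC
  rw [Polynomial.map_sum, eval_finsetSum]
  refine Finset.sum_congr rfl fun k hk => ?_
  have hk' : k ≤ N := Nat.lt_succ_iff.mp (Finset.mem_range.mp hk)
  simp only [Polynomial.map_mul, Polynomial.map_pow, map_C, map_X, eval_mul, eval_pow, eval_C,
    eval_X, coeff_map]
  have h2 : z ^ (m * N) = z ^ (m * (N - k)) * (z ^ m) ^ k := by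
    rw [← pow_mul, ← pow_add, ← Nat.mul_add, Nat.sub_add_cancel hk']
  have h3 : (z ^ m) ^ k ≠ 0 := pow_ne_zero _ (pow_ne_zero _ hz)
  rw [h2, div_pow]
  field_simp

theorem ez_ne (t : ℝ) : ez t ≠ 0 := by
  intro h0
  have h1 := D_norm_ez t
  rw [h0, norm_zero] at h1
  exact zero_ne_one h1

theorem kp_ne_of (h : ℤ[X]) (m : ℕ) (hg : ∀ c : ℤ, h ≠ C c * X ^ m) : kp (toC h) m ≠ 0 := by
  intro h0
  apply hg (h.coeff m)
  ext k
  rw [coeff_C_mul, coeff_X_pow]
  by_cases hk : k = m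
  · rw [hk]
    simp
  · rw [if_neg hk, mul_zero]
    have h1 : (kp (toC h) m).coeff k = ((k : ℂ) - m) * (h.coeff k : ℂ) := by
      unfold kp toC
      rw [coeff_sub, coeff_C_mul, coeff_map]
      rcases k with _ | k
      · simp
      · rw [coeff_X_mul, coeff_derivative, coeff_map]
        push_cast
        simp only [eq_intCast]
        ring
    rw [h0, coeff_zero] at h1
    have h2 : (k : ℂ) - m ≠ 0 := by
      rw [sub_ne_zero]
      exact_mod_cast hk
    have h3 := (mul_eq_zero.mp h1.symm).resolve_left h2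
    exact_mod_cast h3

theorem hom_ne (h : ℤ[X]) (m N : ℕ) (hk : kp (toC h) m ≠ 0) (P : ℤ[X]) (hN : P.natDegree ≤ N)
    (hP : P ≠ 0) : hom h m N P ≠ 0 := by
  intro h0
  have hP0 : toC P ≠ 0 := D_toC_ne P hP
  have hall : ∀ᵐ t : ℝ, ∀ a ∈ (toC P).roots.toFinset, (fp (toC h) m a).eval (ez t) ≠ 0 := by
    rw [Filter.eventually_all_finset]
    exact fun a _ => ae_eval_ne _ (fp_ne (toC h) m a hk)
  have h1 : ∀ᵐ t : ℝ, False := by
    filter_upwards [hall] with t ht
    have h2 := hom_eval h m N P hN (ez t) (ez_ne t)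
    rw [h0] at h2
    simp only [toC, Polynomial.map_zero, eval_zero] at h2
    have h3 := (mul_eq_zero.mp h2.symm).resolve_left (pow_ne_zero _ (ez_ne t))
    have h4 := ht ((toC h).eval (ez t) / ez t ^ m) (by
      rw [Multiset.mem_toFinset, mem_roots hP0]
      exact h3)
    rw [fp_eval, div_mul_cancel₀ _ (pow_ne_zero _ (ez_ne t))] at h4
    exact h4 (sub_self _)
  have h5 := h1.exists
  exact h5.elim fun _ h => h

/-- the fraction of the substituted pair -/
theorem hom_frac (h : ℤ[X]) (m : ℕ) (hk : kp (toC h) m ≠ 0) (P Q : ℤ[X])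
    (hnd : (toC P).roots.Nodup) (hdeg : Q.degree < P.degree) :
    ∀ᵐ t : ℝ, ev1 (hom h m (P.natDegree - 1) Q) t = ev1 (hom h m P.natDegree P) t *
      ∑ a : (toC P).roots.toFinset, ((toC Q).eval (a : ℂ) / (derivative (toC P)).eval (a : ℂ)) /
        ((toC h).eval (ez t) - a * ez t ^ m) := by
  have hP : P ≠ 0 := by
    rintro rfl
    simp at hdeg
  have hne := hom_ne h m P.natDegree hk P le_rfl hP
  by_cases hQ0 : Q = 0
  · refine ae_of_all _ fun t => ?_
    rw [hQ0]
    simp [hom, toC, ev1]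
  have hn : Q.natDegree < P.natDegree := natDegree_lt_natDegree hQ0 hdeg
  filter_upwards [ae_eval_ne _ (D_toC_ne _ hne)] with t ht
  set z := ez t with hz
  have hz0 : z ≠ 0 := ez_ne t
  have hzm : z ^ m ≠ 0 := pow_ne_zero _ hz0
  unfold ev1
  rw [← hz]
  rw [hom_eval h m _ P le_rfl z hz0] at ht ⊢
  rw [hom_eval h m _ Q (by omega) z hz0]
  have hx := right_ne_zero_of_mul ht
  have hdeg' : (toC Q).degree < (toC P).degree := by
    unfold toC
    rw [degree_map_eq_of_injective (RingHom.injective_int _),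
      degree_map_eq_of_injective (RingHom.injective_int _)]
    exact hdeg
  rw [frac_eq (toC P) (toC Q) hnd hdeg' _ hx]
  rw [← Finset.sum_coe_sort]
  have h1 : m * P.natDegree = m * (P.natDegree - 1) + m := by
    obtain ⟨k, hk'⟩ := Nat.exists_eq_succ_of_ne_zero (by omega : P.natDegree ≠ 0)
    rw [hk']
    simp only [Nat.succ_eq_add_one, Nat.add_sub_cancel]
    ring
  rw [h1, pow_add]
  have h2 : ∀ a : (toC P).roots.toFinset,
      ((toC Q).eval (a : ℂ) / (derivative (toC P)).eval (a : ℂ)) /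
        ((toC h).eval z / z ^ m - a) = z ^ m *
      (((toC Q).eval (a : ℂ) / (derivative (toC P)).eval (a : ℂ)) /
        ((toC h).eval z - a * z ^ m)) := by
    intro a
    have h3 : (toC h).eval z / z ^ m - a = ((toC h).eval z - a * z ^ m) / z ^ m := by
      field_simp
    rw [h3, div_div_eq_mul_div]
    ring
  rw [Finset.sum_congr rfl fun a _ => h2 a, ← Finset.mul_sum]
  ring

/-- **Lehmer's inequality for polynomials with bounded residues.** -/
theorem res_gap (h : ℤ[X]) (m : ℕ) (hk : kp (toC h) m ≠ 0) (L c : ℝ)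
    (hgap : ∀ (P Q : ℤ[X]), P ≠ 0 → ∀ F : ℝ → ℂ,
      Dom (fun t => ‖F t‖) (subC (toC h) m L) → (∀ᵐ t : ℝ, ev1 Q t = ev1 P t * F t) →
      ∀ (z : ℂ) (r : ℕ), 1 < ‖z‖ → (X - C z) ^ r ∣ toC P → ¬ (X - C z) ^ r ∣ toC Q → c ≤ m1 P)
    (P Q : ℤ[X]) (hdeg : Q.degree < P.degree) (hnd : (toC P).roots.Nodup)
    (hL : ∑ a ∈ (toC P).roots.toFinset,
      ‖(toC Q).eval a‖ / ‖(derivative (toC P)).eval a‖ ≤ L)
    (z : ℂ) (hz1 : 1 < ‖z‖) (hPz : (toC P).eval ((toC h).eval z / z ^ m) = 0)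
    (hQz : (toC Q).eval ((toC h).eval z / z ^ m) ≠ 0) :
    c ≤ m1 (hom h m P.natDegree P) := by
  have hP : P ≠ 0 := by
    rintro rfl
    simp at hdeg
  have hz0 : z ≠ 0 := by
    rintro rfl
    rw [norm_zero] at hz1
    linarith
  have hQ0 : Q ≠ 0 := by
    rintro rfl
    apply hQz
    simp [toC]
  have hn : Q.natDegree < P.natDegree := natDegree_lt_natDegree hQ0 hdeg
  refine hgap _ (hom h m (P.natDegree - 1) Q) (hom_ne h m _ hk P le_rfl hP) _ ?_
    (hom_frac h m hk P Q hnd hdeg) z 1 hz1 ?_ ?_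
  · refine dom_sub (toC h) m hk L _ _ ?_
    simp only [norm_div]
    rw [Finset.sum_coe_sort (toC P).roots.toFinset
      (fun a => ‖(toC Q).eval a‖ / ‖(derivative (toC P)).eval a‖)]
    exact hL
  · rw [pow_one, dvd_iff_isRoot, IsRoot.def, hom_eval h m _ P le_rfl z hz0, hPz, mul_zero]
  · rw [pow_one, dvd_iff_isRoot, IsRoot.def, hom_eval h m _ Q (by omega) z hz0]
    exact mul_ne_zero (pow_ne_zero _ hz0) hQz

/-- The case `Q = 1`. -/
theorem res_gap_one (h : ℤ[X]) (m : ℕ) (hk : kp (toC h) m ≠ 0) (L c : ℝ) (hc2 : c ≤ 2)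
    (hgap : ∀ (P Q : ℤ[X]), P ≠ 0 → ∀ F : ℝ → ℂ,
      Dom (fun t => ‖F t‖) (subC (toC h) m L) → (∀ᵐ t : ℝ, ev1 Q t = ev1 P t * F t) →
      ∀ (z : ℂ) (r : ℕ), 1 < ‖z‖ → (X - C z) ^ r ∣ toC P → ¬ (X - C z) ^ r ∣ toC Q → c ≤ m1 P)
    (P : ℤ[X]) (hP : P ≠ 0) (hnd : (toC P).roots.Nodup)
    (hL : ∑ a ∈ (toC P).roots.toFinset, 1 / ‖(derivative (toC P)).eval a‖ ≤ L) :
    m1 (hom h m P.natDegree P) = 1 ∨ c ≤ m1 (hom h m P.natDegree P) := by
  by_cases hM : m1 (hom h m P.natDegree P) = 1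
  · exact Or.inl hM
  right
  rcases m1_cases _ (hom_ne h m _ hk P le_rfl hP) hM with h1 | ⟨z, hz, hz1⟩
  · exact hc2.trans h1
  have hz0 : z ≠ 0 := by
    rintro rfl
    rw [norm_zero] at hz1
    linarith
  rw [hom_eval h m _ P le_rfl z hz0] at hz
  have hPz := (mul_eq_zero.mp hz).resolve_left (pow_ne_zero _ hz0)
  have hdeg : (1 : ℤ[X]).degree < P.degree := by
    rw [degree_one]
    by_contra hcon
    push Not at hcon
    obtain ⟨a, ha⟩ : ∃ a, P = C a := ⟨_, eq_C_of_degree_le_zero hcon⟩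
    rw [ha] at hPz hP
    simp only [toC, map_C, eval_C] at hPz
    apply hP
    have h2 : a = 0 := by
      rw [eq_intCast] at hPz
      exact_mod_cast hPz
    rw [h2, C_0]
  refine res_gap h m hk L c hgap P 1 hdeg hnd ?_ z hz1 hPz ?_
  · refine le_trans (le_of_eq ?_) hL
    refine Finset.sum_congr rfl fun a _ => ?_
    simp [toC]
  · simp [toC]

end

end Pool.Agent.Y820.LB
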