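import Mathlib
import Pool.Agent.Y820.LB.Avg

/-!
# Resolvents of contractions and of inverses of contractions on the unit circle
-/

set_option autoImplicit false

namespace Pool.Agent.Y820.LB

open MeasureTheory Polynomial Filter
open Pool.Agent.H261R2.CM (ez D_norm_ez)
open Pool.Agent.W242.IM (ae_eval_ne)

noncomputable section

/-- an analytic function `G = M / N` with nonnegative real part -/
theorem dom_abstract (N M : ℂ[X]) (G : ℂ → ℂ) (V : ℝ) (hV : 0 ≤ V)
    (hNd : ∀ z : ℂ, ‖z‖ < 1 → N.eval z ≠ 0) (hN0 : N.eval 0 = 1)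
    (hM : ∀ z : ℂ, N.eval z ≠ 0 → M.eval z = N.eval z * G z)
    (hG : ∀ z : ℂ, ‖z‖ ≤ 1 → N.eval z ≠ 0 → 0 ≤ (G z).re) (hG0 : G 0 = (V : ℂ)) :
    Dom (fun t => ‖G (ez t)‖) (Real.log 2 + Real.log (1 + V)) := by
  set R := N + M with hR
  have hRe : ∀ z : ℂ, N.eval z ≠ 0 → R.eval z = N.eval z * (1 + G z) := by
    intro z hz
    rw [hR, eval_add, hM z hz]
    ring
  have hRd : ∀ z : ℂ, ‖z‖ < 1 → R.eval z ≠ 0 := by
    intro z hz
    rw [hRe z (hNd z hz)]
    refine mul_ne_zero (hNd z hz) fun h2 => ?_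
    have h3 := hG z hz.le (hNd z hz)
    have h4 := congrArg Complex.re h2
    simp only [Complex.add_re, Complex.one_re, Complex.zero_re] at h4
    linarith
  have hN1 : N.mahlerMeasure = 1 := by
    rw [mahler_of_no_zeros N hNd, hN0, norm_one]
  have hR0 : R.mahlerMeasure = 1 + V := by
    rw [mahler_of_no_zeros R hRd, hRe 0 (by rw [hN0]; exact one_ne_zero), hN0, one_mul, hG0]
    have h1 : (1 : ℂ) + (V : ℂ) = ((1 + V : ℝ) : ℂ) := by push_cast; rfl
    rw [h1, Complex.norm_real, Real.norm_of_nonneg (by linarith)]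
  have hNne : N ≠ 0 := by
    rintro h
    rw [h] at hN0
    simp at hN0
  refine ⟨fun t => Real.log 2 + (Real.log ‖R.eval (ez t)‖ - Real.log ‖N.eval (ez t)‖), ?_, ?_, ?_⟩
  · exact intervalIntegrable_const.add ((integrable_log R).sub (integrable_log N))
  · filter_upwards [ae_eval_ne N hNne] with t ht
    refine ⟨norm_nonneg _, ?_⟩
    rw [hRe (ez t) ht, norm_mul]
    have h2 := hG (ez t) (D_norm_ez t).le ht
    generalize G (ez t) = F at h2 ⊢
    have h3 : 1 ≤ ‖1 + F‖ := by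
      refine le_trans ?_ (Complex.re_le_norm _)
      simp only [Complex.add_re, Complex.one_re]
      linarith
    have h4 : ‖F‖ ≤ ‖1 + F‖ := by
      rw [← sq_le_sq₀ (norm_nonneg _) (norm_nonneg _), ← Complex.normSq_eq_norm_sq,
        ← Complex.normSq_eq_norm_sq, Complex.normSq_apply, Complex.normSq_apply]
      simp only [Complex.add_re, Complex.one_re, Complex.add_im, Complex.one_im, zero_add]
      nlinarith
    have h5 : 0 < ‖N.eval (ez t)‖ := norm_pos_iff.mpr ht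
    rw [Real.log_mul h5.ne' (by linarith), add_sub_cancel_left,
      ← Real.log_mul (by norm_num) (by linarith)]
    exact Real.log_le_log (by positivity) (by linarith)
  · rw [intervalIntegral.integral_add intervalIntegrable_const
      ((integrable_log R).sub (integrable_log N)),
      intervalIntegral.integral_sub (integrable_log R) (integrable_log N), ← log_mahler,
      ← log_mahler, hN1, hR0]
    simp

variable {n : ℕ}

/-- the operator of a matrix -/
def act (W : Matrix (Fin n) (Fin n) ℂ) : EuclideanSpace ℂ (Fin n) →L[ℂ] EuclideanSpace ℂ (Fin n) :=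
  Matrix.toEuclideanCLM (n := Fin n) (𝕜 := ℂ) W

theorem act_mul (U W : Matrix (Fin n) (Fin n) ℂ) (x : EuclideanSpace ℂ (Fin n)) :
    act (U * W) x = act U (act W x) := by
  unfold act
  rw [map_mul]
  rfl

theorem act_one (x : EuclideanSpace ℂ (Fin n)) : act (1 : Matrix (Fin n) (Fin n) ℂ) x = x := by
  unfold act
  rw [map_one]
  rfl

theorem act_sub (U W : Matrix (Fin n) (Fin n) ℂ) (x : EuclideanSpace ℂ (Fin n)) :
    act (U - W) x = act U x - act W x := by
  unfold act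
  rw [map_sub]
  rfl

theorem act_add (U W : Matrix (Fin n) (Fin n) ℂ) (x : EuclideanSpace ℂ (Fin n)) :
    act (U + W) x = act U x + act W x := by
  unfold act
  rw [map_add]
  rfl

theorem act_smul (c : ℂ) (W : Matrix (Fin n) (Fin n) ℂ) (x : EuclideanSpace ℂ (Fin n)) :
    act (c • W) x = c • act W x := by
  unfold act
  rw [map_smul]
  rfl

theorem act_apply (W : Matrix (Fin n) (Fin n) ℂ) (x : EuclideanSpace ℂ (Fin n)) (i : Fin n) :
    act W x i = ∑ j, W i j * x j := by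
  unfold act
  have h1 : x = WithLp.toLp 2 (WithLp.ofLp x) := rfl
  rw [h1, Matrix.toEuclideanCLM_toLp]
  rfl

theorem act_inner (W : Matrix (Fin n) (Fin n) ℂ) (x y : EuclideanSpace ℂ (Fin n)) :
    inner ℂ x (act W y) = ∑ i, ∑ j, star (x i) * W i j * y j := by
  rw [PiLp.inner_apply]
  refine Finset.sum_congr rfl fun i _ => ?_
  rw [act_apply]
  simp only [RCLike.inner_apply]
  rw [Finset.sum_mul]
  refine Finset.sum_congr rfl fun j _ => ?_
  rw [RCLike.star_def]
  ring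

theorem act_star (W : Matrix (Fin n) (Fin n) ℂ) (x y : EuclideanSpace ℂ (Fin n)) :
    inner ℂ x (act W y) = inner ℂ (act W.conjTranspose x) y := by
  have h4 : act W.conjTranspose = ContinuousLinearMap.adjoint (act W) := by
    unfold act
    have h5 : Matrix.toEuclideanCLM (n := Fin n) (𝕜 := ℂ) (Matrix.conjTranspose W) =
        star (Matrix.toEuclideanCLM (n := Fin n) (𝕜 := ℂ) W) :=
      map_star (Matrix.toEuclideanCLM (n := Fin n) (𝕜 := ℂ)) W
    rw [h5, ContinuousLinearMap.star_eq_adjoint]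
  rw [h4, ContinuousLinearMap.adjoint_inner_left]

theorem norm_act_star (W : Matrix (Fin n) (Fin n) ℂ) : ‖act W.conjTranspose‖ = ‖act W‖ := by
  unfold act
  have h5 : Matrix.toEuclideanCLM (n := Fin n) (𝕜 := ℂ) (Matrix.conjTranspose W) =
      star (Matrix.toEuclideanCLM (n := Fin n) (𝕜 := ℂ) W) :=
    map_star (Matrix.toEuclideanCLM (n := Fin n) (𝕜 := ℂ)) W
  rw [h5, ContinuousLinearMap.star_eq_adjoint, LinearIsometryEquiv.norm_map]

/-- contraction -/
def Ctr (W : Matrix (Fin n) (Fin n) ℂ) : Prop := ∀ x, ‖act W x‖ ≤ ‖x‖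

theorem Ctr.star {W : Matrix (Fin n) (Fin n) ℂ} (h : Ctr W) : Ctr W.conjTranspose := by
  intro x
  have h1 : ‖act W‖ ≤ 1 := ContinuousLinearMap.opNorm_le_bound _ zero_le_one fun x => by
    rw [one_mul]
    exact h x
  rw [← norm_act_star] at h1
  calc ‖act W.conjTranspose x‖ ≤ ‖act W.conjTranspose‖ * ‖x‖ :=
        ContinuousLinearMap.le_opNorm _ _
    _ ≤ 1 * ‖x‖ := mul_le_mul_of_nonneg_right h1 (norm_nonneg _)
    _ = ‖x‖ := one_mul _

theorem re_nonneg (W K : Matrix (Fin n) (Fin n) ℂ) (hW : Ctr W) (z : ℂ) (hz : ‖z‖ ≤ 1)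
    (hK : (1 - z • W) * K = 1) (v : EuclideanSpace ℂ (Fin n)) :
    0 ≤ (inner ℂ v (act K v)).re := by
  set x := act K v with hx
  have hv : v = x - z • act W x := by
    calc v = act ((1 - z • W) * K) v := by rw [hK, act_one]
      _ = x - z • act W x := by rw [act_mul, act_sub, act_one, act_smul]
  have h1 : inner ℂ v x = inner ℂ x x - inner ℂ (z • act W x) x := by
    conv_lhs => rw [hv]
    rw [inner_sub_left]
  rw [h1, Complex.sub_re]
  have h2 : (inner ℂ x x : ℂ).re = ‖x‖ ^ 2 := by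
    rw [inner_self_eq_norm_sq_to_K]
    norm_cast
  have h3 : (inner ℂ (z • act W x) x : ℂ).re ≤ ‖x‖ ^ 2 := by
    refine (Complex.re_le_norm _).trans ((norm_inner_le_norm _ _).trans ?_)
    rw [norm_smul, sq]
    refine mul_le_mul_of_nonneg_right ?_ (norm_nonneg _)
    calc ‖z‖ * ‖act W x‖ ≤ 1 * ‖x‖ :=
          mul_le_mul hz (hW x) (norm_nonneg _) zero_le_one
      _ = ‖x‖ := one_mul _
  rw [h2]
  linarith

theorem det_ne_of_ctr (W : Matrix (Fin n) (Fin n) ℂ) (hW : Ctr W) (z : ℂ) (hz : ‖z‖ < 1) :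
    (1 - z • W).det ≠ 0 := by
  intro h0
  obtain ⟨v, hv, h1⟩ := Matrix.exists_mulVec_eq_zero_iff.mpr h0
  set x : EuclideanSpace ℂ (Fin n) := WithLp.toLp 2 v with hx
  have h2 : act (1 - z • W) x = 0 := by
    unfold act
    rw [hx, Matrix.toEuclideanCLM_toLp, h1]
    rfl
  rw [act_sub, act_one, act_smul, sub_eq_zero] at h2
  have h3 : 0 < ‖x‖ := by
    rw [norm_pos_iff]
    intro h4
    apply hv
    have h5 := congrArg WithLp.ofLp h4
    simpa [hx] using h5
  have h4 : ‖x‖ ≤ ‖z‖ * ‖x‖ := by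
    conv_lhs => rw [h2, norm_smul]
    exact mul_le_mul_of_nonneg_left (hW x) (norm_nonneg _)
  nlinarith

/-- the determinant as a polynomial -/
def NP (W : Matrix (Fin n) (Fin n) ℂ) : ℂ[X] := (1 - (X : ℂ[X]) • W.map (C : ℂ →+* ℂ[X])).det

/-- the adjugate as a matrix of polynomials -/
def AP (W : Matrix (Fin n) (Fin n) ℂ) : Matrix (Fin n) (Fin n) ℂ[X] :=
  (1 - (X : ℂ[X]) • W.map (C : ℂ →+* ℂ[X])).adjugate

theorem map_NP (W : Matrix (Fin n) (Fin n) ℂ) (z : ℂ) :
    (evalRingHom z).mapMatrix (1 - (X : ℂ[X]) • W.map (C : ℂ →+* ℂ[X])) = 1 - z • W := by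
  ext i j
  by_cases hij : i = j
  · subst hij
    simp
    ring
  · simp [hij]
    ring

theorem NP_eval (W : Matrix (Fin n) (Fin n) ℂ) (z : ℂ) : (NP W).eval z = (1 - z • W).det := by
  rw [← map_NP, ← RingHom.map_det]
  rfl

theorem AP_eval (W : Matrix (Fin n) (Fin n) ℂ) (z : ℂ) (i j : Fin n) :
    (AP W i j).eval z = (1 - z • W).adjugate i j := by
  rw [← map_NP, ← RingHom.map_adjugate]
  rfl

/-- quadratic form of the resolvent -/
theorem dom_quad (W : Matrix (Fin n) (Fin n) ℂ) (hW : Ctr W) (v : EuclideanSpace ℂ (Fin n)) :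
    Dom (fun t => ‖inner ℂ v (act (1 - ez t • W)⁻¹ v)‖) (Real.log 2 + Real.log (1 + ‖v‖ ^ 2)) := by
  refine dom_abstract (NP W) (∑ i, ∑ j, C (star (v i)) * AP W i j * C (v j))
    (fun z => inner ℂ v (act (1 - z • W)⁻¹ v)) (‖v‖ ^ 2) (by positivity) ?_ ?_ ?_ ?_ ?_
  · intro z hz
    rw [NP_eval]
    exact det_ne_of_ctr W hW z hz
  · rw [NP_eval, zero_smul, sub_zero, Matrix.det_one]
  · intro z hz
    rw [NP_eval] at hz ⊢
    rw [act_inner, eval_finsetSum, Finset.mul_sum]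
    refine Finset.sum_congr rfl fun i _ => ?_
    rw [eval_finsetSum, Finset.mul_sum]
    refine Finset.sum_congr rfl fun j _ => ?_
    rw [eval_mul, eval_mul, eval_C, eval_C, AP_eval, Matrix.inv_def, Matrix.smul_apply,
      smul_eq_mul, Ring.inverse_eq_inv']
    field_simp
  · intro z hz hN
    rw [NP_eval] at hN
    refine re_nonneg W _ hW z hz ?_ v
    exact Matrix.mul_nonsing_inv _ (isUnit_iff_ne_zero.mpr hN)
  · simp only [zero_smul, sub_zero, inv_one, act_one]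
    rw [inner_self_eq_norm_sq_to_K]
    norm_cast

/-- polarisation -/
theorem polar (K : Matrix (Fin n) (Fin n) ℂ) (s t : EuclideanSpace ℂ (Fin n)) :
    inner ℂ t (act K s) =
      inner ℂ ((1 / 2 : ℂ) • (s + t)) (act K ((1 / 2 : ℂ) • (s + t))) +
      Complex.I * inner ℂ ((1 / 2 : ℂ) • (s + Complex.I • t))
        (act K ((1 / 2 : ℂ) • (s + Complex.I • t))) -
      inner ℂ ((1 / 2 : ℂ) • (s - t)) (act K ((1 / 2 : ℂ) • (s - t))) -
      Complex.I * inner ℂ ((1 / 2 : ℂ) • (s - Complex.I • t))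
        (act K ((1 / 2 : ℂ) • (s - Complex.I • t))) := by
  simp only [map_smul, map_add, map_sub, inner_smul_left, inner_smul_right, inner_add_left,
    inner_add_right, inner_sub_left, inner_sub_right, map_div₀, map_one, Complex.conj_I,
    map_ofNat]
  ring_nf
  simp only [Complex.I_sq]
  ring

theorem dom_polar (W : Matrix (Fin n) (Fin n) ℂ) (hW : Ctr W) (s t : EuclideanSpace ℂ (Fin n))
    (L : ℝ) (hL : ((‖s‖ + ‖t‖) / 2) ^ 2 ≤ L) :
    Dom (fun τ => ‖inner ℂ t (act (1 - ez τ • W)⁻¹ s)‖) (4 * (Real.log 2 + Real.log (1 + L))) := by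
  have key : ∀ v : EuclideanSpace ℂ (Fin n), ‖v‖ ≤ (‖s‖ + ‖t‖) / 2 →
      Dom (fun τ => ‖inner ℂ v (act (1 - ez τ • W)⁻¹ v)‖) (Real.log 2 + Real.log (1 + L)) := by
    intro v hv
    refine (dom_quad W hW v).le ?_
    have h1 : ‖v‖ ^ 2 ≤ L := (pow_le_pow_left₀ (norm_nonneg _) hv 2).trans hL
    have h2 : Real.log (1 + ‖v‖ ^ 2) ≤ Real.log (1 + L) :=
      Real.log_le_log (by positivity) (by linarith)
    linarith
  have hn : ∀ c : ℂ, ‖c‖ = 1 → ‖(1 / 2 : ℂ) • (s + c • t)‖ ≤ (‖s‖ + ‖t‖) / 2 := by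
    intro c hc
    rw [norm_smul]
    have h1 : ‖(1 / 2 : ℂ)‖ = 1 / 2 := by norm_num
    have h2 := norm_add_le s (c • t)
    rw [norm_smul, hc, one_mul] at h2
    rw [h1]
    linarith
  have k1 := key ((1 / 2 : ℂ) • (s + t)) (by simpa using hn 1 norm_one)
  have k2 := key _ (hn Complex.I Complex.norm_I)
  have k3 := key ((1 / 2 : ℂ) • (s - t)) (by simpa [sub_eq_add_neg] using hn (-1) (by simp))
  have k4 := key ((1 / 2 : ℂ) • (s - Complex.I • t)) (by
    simpa [sub_eq_add_neg] using hn (-Complex.I) (by simp))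
  have k := ((k1.add k2).add k3).add k4
  refine (k.le (by linarith)).mono (ae_of_all _ fun τ => ⟨norm_nonneg _, ?_⟩)
  rw [polar]
  refine (norm_sub_le _ _).trans (add_le_add ((norm_sub_le _ _).trans
    (add_le_add ((norm_add_le _ _).trans (add_le_add le_rfl ?_)) le_rfl)) ?_)
  · rw [norm_mul, Complex.norm_I, one_mul]
  · rw [norm_mul, Complex.norm_I, one_mul]

theorem dom_zero {c : ℝ} (hc : 0 ≤ c) : Dom (fun _ => 0) c :=
  ⟨fun _ => 0, intervalIntegrable_const, ae_of_all _ fun _ => ⟨le_rfl, by simp⟩, by simpa⟩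

/-- matrix elements of the resolvent of a contraction -/
theorem dom_ctr (W : Matrix (Fin n) (Fin n) ℂ) (hW : Ctr W) (s t : EuclideanSpace ℂ (Fin n))
    (L : ℝ) (hL : ‖s‖ * ‖t‖ ≤ L) :
    Dom (fun τ => ‖inner ℂ t (act (1 - ez τ • W)⁻¹ s)‖) (4 * (Real.log 2 + Real.log (1 + L))) := by
  have hL0 : 0 ≤ L := le_trans (by positivity) hL
  have hc0 : 0 ≤ 4 * (Real.log 2 + Real.log (1 + L)) := by
    have h1 := Real.log_nonneg (by linarith : (1:ℝ) ≤ 1 + L)
    have h2 := Real.log_nonneg (by norm_num : (1:ℝ) ≤ 2)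
    linarith
  by_cases hs : s = 0
  · have h1 : (fun τ => ‖inner ℂ t (act (1 - ez τ • W)⁻¹ s)‖) = fun _ : ℝ => (0 : ℝ) := by
      ext τ
      rw [hs, map_zero, inner_zero_right, norm_zero]
    rw [h1]
    exact dom_zero hc0
  by_cases ht : t = 0
  · have h1 : (fun τ => ‖inner ℂ t (act (1 - ez τ • W)⁻¹ s)‖) = fun _ : ℝ => (0 : ℝ) := by
      ext τ
      rw [ht, inner_zero_left, norm_zero]
    rw [h1]
    exact dom_zero hc0
  have hs' : 0 < ‖s‖ := norm_pos_iff.mpr hs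
  have ht' : 0 < ‖t‖ := norm_pos_iff.mpr ht
  set a : ℝ := √(‖t‖ / ‖s‖) with ha
  have ha0 : 0 < a := Real.sqrt_pos.mpr (by positivity)
  have ha2 : a ^ 2 = ‖t‖ / ‖s‖ := Real.sq_sqrt (by positivity)
  have h1 : ‖((a : ℂ)) • s‖ = a * ‖s‖ := by
    rw [norm_smul, Complex.norm_real, Real.norm_of_nonneg ha0.le]
  have h2 : ‖((a⁻¹ : ℝ) : ℂ) • t‖ = a⁻¹ * ‖t‖ := by
    rw [norm_smul, Complex.norm_real, Real.norm_of_nonneg (by positivity)]
  have h3 : a⁻¹ * ‖t‖ = a * ‖s‖ := by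
    have h4 : ‖t‖ = a ^ 2 * ‖s‖ := by
      rw [ha2]
      field_simp
    rw [h4]
    field_simp
  have h5 := dom_polar W hW ((a : ℂ) • s) (((a⁻¹ : ℝ) : ℂ) • t) L (by
    rw [h1, h2, h3]
    have h6 : ((a * ‖s‖ + a * ‖s‖) / 2) ^ 2 = ‖s‖ * ‖t‖ := by
      have h7 : ((a * ‖s‖ + a * ‖s‖) / 2) ^ 2 = a ^ 2 * ‖s‖ ^ 2 := by ring
      rw [h7, ha2]
      field_simp
    rw [h6]
    exact hL)
  refine h5.mono (ae_of_all _ fun τ => ⟨norm_nonneg _, le_of_eq ?_⟩)
  rw [map_smul, inner_smul_right, inner_smul_left]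
  have h8 : (starRingEnd ℂ) ((a⁻¹ : ℝ) : ℂ) = ((a⁻¹ : ℝ) : ℂ) := Complex.conj_ofReal _
  rw [h8, ← mul_assoc, ← Complex.ofReal_mul, mul_inv_cancel₀ ha0.ne', Complex.ofReal_one, one_mul]

theorem inv_smul_ne (c : ℂ) (hc : c ≠ 0) (K : Matrix (Fin n) (Fin n) ℂ) :
    (c • K)⁻¹ = c⁻¹ • K⁻¹ := by
  by_cases h : IsUnit K.det
  · refine Matrix.inv_eq_left_inv ?_
    rw [Matrix.smul_mul, Matrix.mul_smul, smul_smul, inv_mul_cancel₀ hc, one_smul,
      Matrix.nonsing_inv_mul _ h]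
  · have h2 : ¬ IsUnit (c • K).det := by
      rw [Matrix.det_smul, isUnit_iff_ne_zero]
      rw [isUnit_iff_ne_zero] at h
      push Not at h ⊢
      rw [h, mul_zero]
    rw [Matrix.nonsing_inv_apply_not_isUnit _ h2, Matrix.nonsing_inv_apply_not_isUnit _ h, smul_zero]

/-- matrix elements of `(z - M)⁻¹` for a contraction `M` -/
theorem dom_in (M : Matrix (Fin n) (Fin n) ℂ) (hM : Ctr M) (s t : EuclideanSpace ℂ (Fin n))
    (L : ℝ) (hL : ‖s‖ * ‖t‖ ≤ L) :
    Dom (fun τ => ‖inner ℂ t (act (ez τ • (1 : Matrix (Fin n) (Fin n) ℂ) - M)⁻¹ s)‖)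
      (4 * (Real.log 2 + Real.log (1 + L))) := by
  refine (dom_ctr M.conjTranspose hM.star t s L (by rw [mul_comm]; exact hL)).mono
    (ae_of_all _ fun τ => ⟨norm_nonneg _, le_of_eq ?_⟩)
  set z := ez τ with hz
  have h1 : z * (starRingEnd ℂ) z = 1 := by
    rw [Complex.mul_conj, Complex.normSq_eq_norm_sq, hz, D_norm_ez]
    norm_num
  have hz0 : z ≠ 0 := left_ne_zero_of_mul_eq_one h1
  have h2 : z • (1 : Matrix (Fin n) (Fin n) ℂ) - M = z • (1 - (starRingEnd ℂ) z • M) := by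
    rw [smul_sub, smul_smul, h1, one_smul]
  have h3 : (z • (1 : Matrix (Fin n) (Fin n) ℂ) - M)⁻¹ =
      z⁻¹ • (1 - z • M.conjTranspose)⁻¹.conjTranspose := by
    rw [h2, Matrix.conjTranspose_nonsing_inv, Matrix.conjTranspose_sub, Matrix.conjTranspose_one,
      Matrix.conjTranspose_smul, Matrix.conjTranspose_conjTranspose]
    exact inv_smul_ne _ hz0 _
  rw [h3, act_smul, inner_smul_right, norm_mul, norm_inv, hz, D_norm_ez, inv_one, one_mul, act_star,
    Matrix.conjTranspose_conjTranspose, ← norm_inner_symm]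

end

end Pool.Agent.Y820.LB
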