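import Mathlib
import Pool.Agent.Y820.LB.Adapt

/-!
# Integer matrices similar to the sum of a contraction and the inverse of a contraction
-/

set_option autoImplicit false

namespace Pool.Agent.Y820.LB

open MeasureTheory Polynomial Filter
open Pool.Agent.H261R2.CM
open Pool.Agent.W242.IM (ae_eval_ne)

noncomputable section

variable {n : ℕ}

/-- matrix elements of `(z - M)⁻¹` for the inverse `M` of a contraction `V` -/
theorem dom_out (M V : Matrix (Fin n) (Fin n) ℂ) (hV : Ctr V) (hVM : V * M = 1)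
    (s t : EuclideanSpace ℂ (Fin n)) (L : ℝ) (hL : ‖s‖ * ‖t‖ ≤ L) :
    Dom (fun τ => ‖inner ℂ t (act (ez τ • (1 : Matrix (Fin n) (Fin n) ℂ) - M)⁻¹ s)‖)
      (4 * (Real.log 2 + Real.log (1 + L))) := by
  refine (dom_ctr V hV s (act V.conjTranspose t) L
    (le_trans (mul_le_mul_of_nonneg_left (hV.star t) (norm_nonneg _)) hL)).mono
    (ae_of_all _ fun τ => ⟨norm_nonneg _, le_of_eq ?_⟩)
  set z := ez τ with hz
  have h2 : z • (1 : Matrix (Fin n) (Fin n) ℂ) - M = (-1 : ℂ) • ((1 - z • V) * M) := by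
    rw [Matrix.sub_mul, Matrix.smul_mul, hVM, one_mul, neg_smul, one_smul, neg_sub]
  rw [h2, inv_smul_ne _ (by norm_num), Matrix.mul_inv_rev, Matrix.inv_eq_left_inv hVM, act_smul,
    inner_smul_right, norm_mul, act_mul, act_star V]
  simp

theorem inner_eq_zero_of (U W : Matrix (Fin n) (Fin n) ℂ) (h : U.conjTranspose * W = 0)
    (x : EuclideanSpace ℂ (Fin n)) : inner ℂ (act U x) (act W x) = 0 := by
  have h1 : inner ℂ (act U x) (act W x) = inner ℂ x (act U.conjTranspose (act W x)) := by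
    rw [act_star U.conjTranspose, Matrix.conjTranspose_conjTranspose]
  rw [h1, ← act_mul, h]
  have h2 : act (0 : Matrix (Fin n) (Fin n) ℂ) x = 0 := by
    unfold act
    rw [map_zero]
    rfl
  rw [h2, inner_zero_right]

theorem norm_sq_add (x y : EuclideanSpace ℂ (Fin n)) (h : inner ℂ x y = (0 : ℂ)) :
    ‖x + y‖ ^ 2 = ‖x‖ ^ 2 + ‖y‖ ^ 2 := by
  rw [norm_add_sq (𝕜 := ℂ), h]
  simp

/-- the resolvent splits -/
theorem inv_split (B E : Matrix (Fin n) (Fin n) ℂ) (hE : E * E = E) (hBE : B * E = E * B) (z : ℂ)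
    (h1 : (z • (1 : Matrix (Fin n) (Fin n) ℂ) - B * E).det ≠ 0)
    (h2 : (z • (1 : Matrix (Fin n) (Fin n) ℂ) - (B * (1 - E) + E)).det ≠ 0) :
    (z • (1 : Matrix (Fin n) (Fin n) ℂ) - B)⁻¹ =
      (z • (1 : Matrix (Fin n) (Fin n) ℂ) - B * E)⁻¹ * E +
        (z • (1 : Matrix (Fin n) (Fin n) ℂ) - (B * (1 - E) + E))⁻¹ * (1 - E) := by
  have h1' : IsUnit (z • (1 : Matrix (Fin n) (Fin n) ℂ) - B * E).det := isUnit_iff_ne_zero.mpr h1
  have h2' : IsUnit (z • (1 : Matrix (Fin n) (Fin n) ℂ) - (B * (1 - E) + E)).det :=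
    isUnit_iff_ne_zero.mpr h2
  refine Matrix.inv_eq_left_inv ?_
  have e1 : E * (z • (1 : Matrix (Fin n) (Fin n) ℂ) - B) =
      (z • (1 : Matrix (Fin n) (Fin n) ℂ) - B * E) * E := by
    rw [Matrix.mul_sub, Matrix.sub_mul, mul_assoc B E E, hE, ← hBE]
    simp
  have e2 : (1 - E) * (z • (1 : Matrix (Fin n) (Fin n) ℂ) - B) =
      (z • (1 : Matrix (Fin n) (Fin n) ℂ) - (B * (1 - E) + E)) * (1 - E) := by
    have e3 : (B * (1 - E) + E) * (1 - E) = B * (1 - E) := by
      have e4 : (1 - E) * (1 - E) = 1 - E := by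
        calc (1 - E) * (1 - E) = 1 - E - E + E * E := by noncomm_ring
          _ = 1 - E := by rw [hE]; abel
      have e5 : E * (1 - E) = 0 := by
        rw [Matrix.mul_sub, hE, mul_one, sub_self]
      rw [Matrix.add_mul, mul_assoc, e4, e5, add_zero]
    have e6 : (1 - E) * B = B * (1 - E) := by
      rw [Matrix.sub_mul, Matrix.mul_sub, one_mul, mul_one, hBE]
    rw [Matrix.mul_sub, Matrix.sub_mul _ _ (1 - E), e3, e6]
    simp
  rw [Matrix.add_mul, mul_assoc, mul_assoc, e1, e2, ← mul_assoc, ← mul_assoc,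
    Matrix.nonsing_inv_mul _ h1', Matrix.nonsing_inv_mul _ h2', one_mul, one_mul]
  abel

/-- the data of an adapted inner product -/
structure Ad (A : Matrix (Fin n) (Fin n) ℤ) (S T B E : Matrix (Fin n) (Fin n) ℂ) (L : ℝ) :
    Prop where
  one : S * T = 1
  eq : A.map (Int.castRingHom ℂ) = S * B * T
  herm : E.conjTranspose = E
  idem : E * E = E
  comm : B * E = E * B
  ctr : ∀ x, ‖act (B * E) x‖ ≤ ‖act E x‖
  exp : ∀ x, ‖act (1 - E) x‖ ≤ ‖act (B * (1 - E)) x‖
  cond : ‖act S‖ * ‖act T‖ ≤ L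

variable {A : Matrix (Fin n) (Fin n) ℤ} {S T B E : Matrix (Fin n) (Fin n) ℂ} {L : ℝ}

theorem split_orth (E : Matrix (Fin n) (Fin n) ℂ) (hh : E.conjTranspose = E) (hE : E * E = E)
    (x : EuclideanSpace ℂ (Fin n)) : ‖x‖ ^ 2 = ‖act (1 - E) x‖ ^ 2 + ‖act E x‖ ^ 2 := by
  have h1 : inner ℂ (act (1 - E) x) (act E x) = (0 : ℂ) := by
    refine inner_eq_zero_of _ _ ?_ x
    rw [Matrix.conjTranspose_sub, Matrix.conjTranspose_one, hh, Matrix.sub_mul, hE, one_mul,
      sub_self]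
  rw [← norm_sq_add _ _ h1, ← act_add, sub_add_cancel, act_one]

theorem Ad.ctrE (h : Ad A S T B E L) : Ctr E := by
  intro x
  have h1 := split_orth E h.herm h.idem x
  have h2 : ‖act E x‖ ^ 2 ≤ ‖x‖ ^ 2 := by rw [h1]; linarith [sq_nonneg ‖act (1 - E) x‖]
  exact (sq_le_sq₀ (norm_nonneg _) (norm_nonneg _)).mp h2

theorem Ad.ctrE' (h : Ad A S T B E L) : Ctr (1 - E) := by
  intro x
  have h1 := split_orth E h.herm h.idem x
  have h2 : ‖act (1 - E) x‖ ^ 2 ≤ ‖x‖ ^ 2 := by rw [h1]; linarith [sq_nonneg ‖act E x‖]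
  exact (sq_le_sq₀ (norm_nonneg _) (norm_nonneg _)).mp h2

theorem Ad.ctrIn (h : Ad A S T B E L) : Ctr (B * E) := fun x => (h.ctr x).trans (h.ctrE x)

theorem Ad.expOut (h : Ad A S T B E L) (x : EuclideanSpace ℂ (Fin n)) :
    ‖x‖ ≤ ‖act (B * (1 - E) + E) x‖ := by
  have h1 : inner ℂ (act (B * (1 - E)) x) (act E x) = (0 : ℂ) := by
    refine inner_eq_zero_of _ _ ?_ x
    have h2 : E * (B * (1 - E)) = 0 := by
      rw [← mul_assoc, ← h.comm, mul_assoc, Matrix.mul_sub, h.idem, mul_one, sub_self, mul_zero]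
    have h3 : (B * (1 - E)).conjTranspose * E = (E * (B * (1 - E))).conjTranspose := by
      rw [Matrix.conjTranspose_mul E, h.herm]
    rw [h3, h2, Matrix.conjTranspose_zero]
  have h4 := norm_sq_add _ _ h1
  rw [← act_add] at h4
  have h5 := split_orth E h.herm h.idem x
  have h6 : ‖act (1 - E) x‖ ^ 2 ≤ ‖act (B * (1 - E)) x‖ ^ 2 :=
    pow_le_pow_left₀ (norm_nonneg _) (h.exp x) 2
  have h7 : ‖x‖ ^ 2 ≤ ‖act (B * (1 - E) + E) x‖ ^ 2 := by rw [h4, h5]; linarith
  exact (sq_le_sq₀ (norm_nonneg _) (norm_nonneg _)).mp h7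

theorem det_ne_of_exp (M : Matrix (Fin n) (Fin n) ℂ) (hM : ∀ x, ‖x‖ ≤ ‖act M x‖) : M.det ≠ 0 := by
  intro h0
  obtain ⟨v, hv, h1⟩ := Matrix.exists_mulVec_eq_zero_iff.mpr h0
  set x : EuclideanSpace ℂ (Fin n) := WithLp.toLp 2 v with hx
  have h2 : act M x = 0 := by
    unfold act
    rw [hx, Matrix.toEuclideanCLM_toLp, h1]
    rfl
  have h3 := hM x
  rw [h2, norm_zero] at h3
  apply hv
  have h4 : x = 0 := norm_eq_zero.mp (le_antisymm h3 (norm_nonneg _))
  have h5 := congrArg WithLp.ofLp h4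
  simpa [hx] using h5

theorem Ad.inv_ctr (h : Ad A S T B E L) :
    Ctr (B * (1 - E) + E)⁻¹ ∧ (B * (1 - E) + E)⁻¹ * (B * (1 - E) + E) = 1 := by
  have h1 : IsUnit (B * (1 - E) + E).det := isUnit_iff_ne_zero.mpr (det_ne_of_exp _ h.expOut)
  refine ⟨fun x => ?_, Matrix.nonsing_inv_mul _ h1⟩
  have h2 := h.expOut (act (B * (1 - E) + E)⁻¹ x)
  rwa [← act_mul, Matrix.mul_nonsing_inv _ h1, act_one] at h2

theorem ae_det_ne (M : Matrix (Fin n) (Fin n) ℂ) :
    ∀ᵐ t : ℝ, (ez t • (1 : Matrix (Fin n) (Fin n) ℂ) - M).det ≠ 0 := by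
  filter_upwards [ae_eval_ne M.charpoly (Matrix.charpoly_monic M).ne_zero] with t ht
  rw [Matrix.eval_charpoly] at ht
  rwa [Matrix.smul_one_eq_diagonal]

/-- matrix elements of the resolvent of the adapted operator -/
theorem Ad.dom (h : Ad A S T B E L) (s t : EuclideanSpace ℂ (Fin n)) (hst : ‖s‖ * ‖t‖ ≤ L) :
    Dom (fun τ => ‖inner ℂ t (act (ez τ • (1 : Matrix (Fin n) (Fin n) ℂ) - B)⁻¹ s)‖)
      (8 * (Real.log 2 + Real.log (1 + L))) := by
  have k1 := dom_in (B * E) h.ctrIn (act E s) t L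
    (le_trans (mul_le_mul_of_nonneg_right (h.ctrE s) (norm_nonneg _)) hst)
  have k2 := dom_out (B * (1 - E) + E) _ h.inv_ctr.1 h.inv_ctr.2 (act (1 - E) s) t L
    (le_trans (mul_le_mul_of_nonneg_right (h.ctrE' s) (norm_nonneg _)) hst)
  refine ((k1.add k2).le (by linarith)).mono ?_
  filter_upwards [ae_det_ne (B * E), ae_det_ne (B * (1 - E) + E)] with τ h1 h2
  refine ⟨norm_nonneg _, ?_⟩
  rw [inv_split B E h.idem h.comm _ h1 h2, act_add, act_mul, act_mul, inner_add_right]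
  exact norm_add_le _ _

theorem Ad.inv (h : Ad A S T B E L) (z : ℂ)
    (hz : (z • (1 : Matrix (Fin n) (Fin n) ℂ) - B).det ≠ 0) :
    (z • (1 : Matrix (Fin n) (Fin n) ℂ) - A.map (Int.castRingHom ℂ))⁻¹ =
      S * (z • (1 : Matrix (Fin n) (Fin n) ℂ) - B)⁻¹ * T := by
  have hz' : IsUnit (z • (1 : Matrix (Fin n) (Fin n) ℂ) - B).det := isUnit_iff_ne_zero.mpr hz
  have hTS : T * S = 1 := mul_eq_one_comm.mp h.one
  refine Matrix.inv_eq_left_inv ?_
  have e1 : z • (1 : Matrix (Fin n) (Fin n) ℂ) - A.map (Int.castRingHom ℂ) =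
      S * (z • (1 : Matrix (Fin n) (Fin n) ℂ) - B) * T := by
    rw [h.eq, Matrix.mul_sub, Matrix.sub_mul, Matrix.mul_smul, mul_one, Matrix.smul_mul, h.one]
  rw [e1]
  calc S * (z • (1 : Matrix (Fin n) (Fin n) ℂ) - B)⁻¹ * T *
        (S * (z • (1 : Matrix (Fin n) (Fin n) ℂ) - B) * T)
      = S * (z • (1 : Matrix (Fin n) (Fin n) ℂ) - B)⁻¹ * (T * S) *
        (z • (1 : Matrix (Fin n) (Fin n) ℂ) - B) * T := by simp only [mul_assoc]
    _ = S * ((z • (1 : Matrix (Fin n) (Fin n) ℂ) - B)⁻¹ *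
        (z • (1 : Matrix (Fin n) (Fin n) ℂ) - B)) * T := by rw [hTS]; simp only [mul_assoc, one_mul]
    _ = 1 := by rw [Matrix.nonsing_inv_mul _ hz', mul_one, h.one]

/-- derivative of the characteristic polynomial -/
theorem derivative_charpoly (M : Matrix (Fin n) (Fin n) ℂ) (z : ℂ)
    (hz : (z • (1 : Matrix (Fin n) (Fin n) ℂ) - M).det ≠ 0) :
    (derivative M.charpoly).eval z =
      ∑ i, (z • (1 : Matrix (Fin n) (Fin n) ℂ) - M).adjugate i i := by
  set D := z • (1 : Matrix (Fin n) (Fin n) ℂ) - M with hD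
  have hz' : IsUnit D.det := isUnit_iff_ne_zero.mpr hz
  set K := D⁻¹ with hK
  have h1 : M.charpoly.comp (C z + X) = C D.det * (1 + (X : ℂ[X]) • K.map (C : ℂ →+* ℂ[X])).det := by
    refine Polynomial.funext fun y => ?_
    rw [eval_comp, eval_mul, eval_C, eval_add, eval_C, eval_X, Matrix.eval_charpoly]
    have h2 : (1 + (X : ℂ[X]) • K.map (C : ℂ →+* ℂ[X])).det.eval y = (1 + y • K).det := by
      have h3 : (evalRingHom y).mapMatrix (1 + (X : ℂ[X]) • K.map (C : ℂ →+* ℂ[X])) =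
          1 + y • K := by
        ext i j
        by_cases hij : i = j
        · subst hij
          simp
          ring
        · simp [hij]
          ring
      rw [← h3, ← RingHom.map_det]
      rfl
    rw [h2, ← Matrix.det_mul]
    congr 1
    rw [Matrix.mul_add, mul_one, Matrix.mul_smul, hK, Matrix.mul_nonsing_inv _ hz', hD]
    have h4 : (Matrix.scalar (Fin n) (z + y) : Matrix (Fin n) (Fin n) ℂ) =
        (z + y) • (1 : Matrix (Fin n) (Fin n) ℂ) := by
      rw [Matrix.smul_one_eq_diagonal]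
      rfl
    rw [h4, add_smul]
    abel
  have h2 := congrArg (fun p => (derivative p).eval 0) h1
  simp only [derivative_comp, derivative_add, derivative_C, derivative_X, zero_add,
    derivative_C_mul, eval_mul, eval_comp, eval_add, eval_C, eval_X, add_zero,
    one_mul] at h2
  rw [Matrix.derivative_det_one_add_X_smul] at h2
  rw [h2, Matrix.trace, Finset.mul_sum]
  refine Finset.sum_congr rfl fun i _ => ?_
  rw [Matrix.diag_apply, hK, Matrix.inv_def, Matrix.smul_apply, smul_eq_mul,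
    Ring.inverse_eq_inv', ← mul_assoc, mul_inv_cancel₀ hz, one_mul]

theorem sum_minor_one (A : Matrix (Fin n) (Fin n) ℤ) :
    ∑ i, toC (minor X 0 A i) = derivative (toC A.charpoly) := by
  have hX : (toC X) = X := by simp [toC]
  have h1 : ∀ᵐ t : ℝ, (∑ i, toC (minor X 0 A i) - derivative (toC A.charpoly)).eval (ez t) = 0 := by
    filter_upwards [ae_det_ne (A.map (Int.castRingHom ℂ))] with t ht
    rw [eval_sub, eval_finsetSum]
    have h2 : toC A.charpoly = (A.map (Int.castRingHom ℂ)).charpoly := by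
      unfold toC
      rw [Matrix.charpoly_map]
    rw [h2, derivative_charpoly _ _ ht, sub_eq_zero]
    refine Finset.sum_congr rfl fun i _ => ?_
    rw [minor_eval', hX, eval_X, pow_zero, one_smul]
  by_contra hne
  have h2 : ∑ i, toC (minor X 0 A i) - derivative (toC A.charpoly) ≠ 0 := sub_ne_zero.mpr hne
  have h3 : ∀ᵐ t : ℝ, False := by
    filter_upwards [h1, ae_eval_ne _ h2] with t h4 h5
    exact h5 h4
  exact h3.exists.elim fun _ h => h

/-- if a zero outside the unit circle exists then some minor cancels it only partially -/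
theorem exists_minor_one (A : Matrix (Fin n) (Fin n) ℤ) (z : ℂ)
    (hz : (toC A.charpoly).eval z = 0) :
    ∃ (i : Fin n) (r : ℕ), (X - C z) ^ r ∣ toC A.charpoly ∧
      ¬ (X - C z) ^ r ∣ toC (minor X 0 A i) := by
  have hP0 : toC A.charpoly ≠ 0 := D_toC_ne _ (Matrix.charpoly_monic A).ne_zero
  set P := toC A.charpoly with hP
  have hr1 : 0 < P.rootMultiplicity z := (rootMultiplicity_pos hP0).mpr hz
  by_contra hcon
  push Not at hcon
  have hdvd : (X - C z) ^ (P.rootMultiplicity z) ∣ P := pow_rootMultiplicity_dvd _ _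
  have h2 : (X - C z) ^ (P.rootMultiplicity z) ∣ derivative P := by
    rw [hP, ← sum_minor_one]
    exact Finset.dvd_sum fun i _ => hcon i _ hdvd
  have h3 : derivative P ≠ 0 := by
    intro h3
    have h4 := derivative_eq_zero.mp h3
    rw [eq_C_of_natDegree_eq_zero h4] at hz hP0
    simp only [eval_C] at hz
    rw [hz] at hP0
    simp at hP0
  have h4 := (le_rootMultiplicity_iff h3).mpr h2
  rw [derivative_rootMultiplicity_of_root hz] at h4
  omega

theorem norm_single_one (i : Fin n) : ‖EuclideanSpace.single i (1 : ℂ)‖ = 1 := by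
  rw [EuclideanSpace.norm_eq, ← Real.sqrt_one]
  congr 1
  rw [Finset.sum_eq_single i]
  · simp
  · intro j _ hj
    simp [hj]
  · simp

/-- **Lehmer's inequality for integer matrices with an adapted inner product.** -/
theorem adapted_gap (L : ℝ) : ∃ c : ℝ, 1 < c ∧ ∀ (n : ℕ) (A : Matrix (Fin n) (Fin n) ℤ)
    (S T B E : Matrix (Fin n) (Fin n) ℂ), Ad A S T B E L →
    m1 A.charpoly = 1 ∨ c ≤ m1 A.charpoly := by
  obtain ⟨c, hc, hc2, hgap⟩ := pair_gap (8 * (Real.log 2 + Real.log (1 + L)))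
  refine ⟨c, hc, fun n A S T B E h => ?_⟩
  by_cases hM : m1 A.charpoly = 1
  · exact Or.inl hM
  right
  have hmon := Matrix.charpoly_monic A
  rcases m1_cases _ hmon.ne_zero hM with h1 | ⟨z, hz, hz1⟩
  · exact hc2.trans h1
  obtain ⟨i, r, h2, h3⟩ := exists_minor_one A z hz
  have hX : (toC X) = X := by simp [toC]
  set e := EuclideanSpace.single i (1 : ℂ) with he
  refine hgap _ (minor X 0 A i) hmon.ne_zero
    (fun τ => inner ℂ (act S.conjTranspose e)
      (act (ez τ • (1 : Matrix (Fin n) (Fin n) ℂ) - B)⁻¹ (act T e)))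
    (h.dom _ _ ?_) ?_ z r hz1 h2 h3
  · have n1 : ‖act T e‖ ≤ ‖act T‖ := by
      have := (act T).le_opNorm e
      rwa [he, norm_single_one, mul_one] at this
    have n2 : ‖act S.conjTranspose e‖ ≤ ‖act S‖ := by
      have := (act S.conjTranspose).le_opNorm e
      rwa [he, norm_single_one, mul_one, norm_act_star] at this
    calc ‖act T e‖ * ‖act S.conjTranspose e‖ ≤ ‖act T‖ * ‖act S‖ :=
          mul_le_mul n1 n2 (norm_nonneg _) (norm_nonneg _)
      _ = ‖act S‖ * ‖act T‖ := mul_comm _ _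
      _ ≤ L := h.cond
  · filter_upwards [ae_det_ne B, ae_det_ne (A.map (Int.castRingHom ℂ))] with τ hB hA
    unfold ev1
    rw [minor_eval', hX, eval_X, pow_zero, one_smul]
    have hch : (toC A.charpoly).eval (ez τ) =
        (ez τ • (1 : Matrix (Fin n) (Fin n) ℂ) - A.map (Int.castRingHom ℂ)).det := by
      have h4 := det_eval' X 0 A (ez τ)
      rw [pencil_one, hX, eval_X, pow_zero, one_smul] at h4
      exact h4
    rw [hch, ← act_star, ← act_mul, ← act_mul, ← h.inv _ hB, act_inner]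
    have h5 : ∑ k, ∑ j, star (e k) * (ez τ • (1 : Matrix (Fin n) (Fin n) ℂ) -
        A.map (Int.castRingHom ℂ))⁻¹ k j * e j =
        (ez τ • (1 : Matrix (Fin n) (Fin n) ℂ) - A.map (Int.castRingHom ℂ))⁻¹ i i := by
      rw [Finset.sum_eq_single i, Finset.sum_eq_single i]
      · rw [he]
        simp
      · intro j _ hj
        rw [he]
        simp [hj]
      · simp
      · intro k _ hk
        refine Finset.sum_eq_zero fun j _ => ?_
        rw [he]
        simp [hk]
      · simp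
    rw [h5, Matrix.inv_def, Matrix.smul_apply, smul_eq_mul, Ring.inverse_eq_inv', ← mul_assoc,
      mul_inv_cancel₀ hA, one_mul]

end

end Pool.Agent.Y820.LB
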