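import Mathlib
import Pool.Agent.Y820.LB.Lor1

/-!
# Isometries of Lorentzian lattices
-/

set_option autoImplicit false

namespace Pool.Agent.Y820.LB

open MeasureTheory Polynomial Filter
open Pool.Agent.H261R2.CM
open Pool.Agent.W242.IM (ae_eval_ne)

noncomputable section

variable {n : ℕ}

/-- a real isometry with a pair of real isotropic eigenvectors and positive definite complement -/
structure Lz (G A : Matrix (Fin n) (Fin n) ℂ) (e f : Fin n → ℂ) (l : ℝ) : Prop where
  symm : G.transpose = G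
  isom : A.transpose * G * A = G
  one_lt : 1 < l
  ev : A.mulVec e = (l : ℂ) • e
  ev' : A.mulVec f = (l : ℂ)⁻¹ • f
  ne : bf G e f ≠ 0
  realG : G.map (starRingEnd ℂ) = G
  realA : A.map (starRingEnd ℂ) = A
  reale : star e = e
  realf : star f = f
  pos : ∀ x : Fin n → ℂ, x ≠ 0 → bf G e x = 0 → bf G f x = 0 → 0 < (bf G (star x) x).re

variable {G A : Matrix (Fin n) (Fin n) ℂ} {e f : Fin n → ℂ} {l : ℝ}

theorem Lz.l0 (h : Lz G A e f l) : (l : ℂ) ≠ 0 := by
  have := h.one_lt
  exact_mod_cast (by linarith : l ≠ 0)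

theorem Lz.bfA (h : Lz G A e f l) (x y : Fin n → ℂ) : bf G (A.mulVec x) (A.mulVec y) = bf G x y := by
  unfold bf
  rw [← Matrix.vecMul_transpose, ← Matrix.dotProduct_mulVec, Matrix.mulVec_mulVec,
    Matrix.mulVec_mulVec, h.isom]

theorem Lz.ee (h : Lz G A e f l) : bf G e e = 0 := by
  have h1 := h.bfA e e
  rw [h.ev, bf_smul_left, bf_smul_right, ← mul_assoc] at h1
  have h2 : ((l : ℂ) * l - 1) * bf G e e = 0 := by rw [sub_mul, h1]; ring
  rcases mul_eq_zero.mp h2 with h3 | h3
  · exfalso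
    have h4 : l * l - 1 = 0 := by exact_mod_cast h3
    nlinarith [h.one_lt]
  · exact h3

theorem Lz.ff (h : Lz G A e f l) : bf G f f = 0 := by
  have h1 := h.bfA f f
  rw [h.ev', bf_smul_left, bf_smul_right, ← mul_assoc] at h1
  have h0 := h.l0
  have h2 : ((l : ℂ) * l - 1) * bf G f f = 0 := by
    have h5 : (l : ℂ) * l * ((l : ℂ)⁻¹ * (l : ℂ)⁻¹ * bf G f f) = bf G f f := by
      field_simp
    rw [h1] at h5
    rw [sub_mul, h5]
    ring
  rcases mul_eq_zero.mp h2 with h3 | h3
  · exfalso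
    have h4 : l * l - 1 = 0 := by exact_mod_cast h3
    nlinarith [h.one_lt]
  · exact h3

/-- the orthogonal complement of the plane -/
def WW (G : Matrix (Fin n) (Fin n) ℂ) (e f : Fin n → ℂ) : Submodule ℂ (Fin n → ℂ) where
  carrier := {x | bf G e x = 0 ∧ bf G f x = 0}
  add_mem' := by
    rintro x y ⟨h1, h2⟩ ⟨h3, h4⟩
    exact ⟨by rw [bf_add_right, h1, h3, add_zero], by rw [bf_add_right, h2, h4, add_zero]⟩
  zero_mem' := by simp [bf]
  smul_mem' := by
    rintro c x ⟨h1, h2⟩
    exact ⟨by rw [bf_smul_right, h1, mul_zero], by rw [bf_smul_right, h2, mul_zero]⟩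

theorem Lz.A_mem (h : Lz G A e f l) (x : Fin n → ℂ) (hx : x ∈ WW G e f) :
    A.mulVec x ∈ WW G e f := by
  obtain ⟨h1, h2⟩ := hx
  have h0 := h.l0
  constructor
  · have h3 := h.bfA e x
    rw [h.ev, bf_smul_left, h1] at h3
    exact (mul_eq_zero.mp h3).resolve_left h0
  · have h3 := h.bfA f x
    rw [h.ev', bf_smul_left, h2] at h3
    exact (mul_eq_zero.mp h3).resolve_left (inv_ne_zero h0)

/-- the projections to the lines -/
def E1 (G : Matrix (Fin n) (Fin n) ℂ) (e f : Fin n → ℂ) : Matrix (Fin n) (Fin n) ℂ :=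
  Matrix.vecMulVec ((bf G e f)⁻¹ • e) (Matrix.vecMul f G)

theorem E1_mulVec (G : Matrix (Fin n) (Fin n) ℂ) (e f x : Fin n → ℂ) :
    (E1 G e f).mulVec x = (bf G f x / bf G e f) • e := by
  unfold E1
  rw [Matrix.vecMulVec_mulVec, ← Matrix.dotProduct_mulVec]
  ext i
  simp only [Pi.smul_apply, MulOpposite.smul_eq_mul_unop, MulOpposite.unop_op, smul_eq_mul]
  unfold bf
  ring

/-- the isometry cut down to the complement -/
def TT (G A : Matrix (Fin n) (Fin n) ℂ) (e f : Fin n → ℂ) : Matrix (Fin n) (Fin n) ℂ :=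
  A * (1 - E1 G e f - E1 G f e)

theorem TT_mulVec (G A : Matrix (Fin n) (Fin n) ℂ) (hG : G.transpose = G) (e f x : Fin n → ℂ) :
    (TT G A e f).mulVec x =
      A.mulVec (x - (bf G f x / bf G e f) • e - (bf G e x / bf G e f) • f) := by
  unfold TT
  rw [← Matrix.mulVec_mulVec, Matrix.sub_mulVec, Matrix.sub_mulVec, Matrix.one_mulVec, E1_mulVec,
    E1_mulVec, bf_comm G hG f e]

theorem Lz.P_mem (h : Lz G A e f l) (x : Fin n → ℂ) :
    x - (bf G f x / bf G e f) • e - (bf G e x / bf G e f) • f ∈ WW G e f := by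
  have hne := h.ne
  constructor
  · rw [bf_sub_right, bf_sub_right, bf_smul_right, bf_smul_right, h.ee]
    field_simp
    ring
  · rw [bf_sub_right, bf_sub_right, bf_smul_right, bf_smul_right, h.ff, bf_comm G h.symm f e]
    field_simp
    ring

theorem Lz.T_mem (h : Lz G A e f l) (x : Fin n → ℂ) : (TT G A e f).mulVec x ∈ WW G e f := by
  rw [TT_mulVec G A h.symm]
  exact h.A_mem _ (h.P_mem x)

theorem Lz.T_eq (h : Lz G A e f l) (x : Fin n → ℂ) (hx : x ∈ WW G e f) :
    (TT G A e f).mulVec x = A.mulVec x := by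
  rw [TT_mulVec G A h.symm, hx.1, hx.2]
  simp

theorem bf_star (G : Matrix (Fin n) (Fin n) ℂ) (hG : G.map (starRingEnd ℂ) = G)
    (x y : Fin n → ℂ) : star (bf G x y) = bf G (star x) (star y) := by
  have hG' : ∀ i j, (starRingEnd ℂ) (G i j) = G i j := fun i j => congrFun (congrFun hG i) j
  unfold bf
  simp only [dotProduct, Matrix.mulVec, star_sum, star_mul', Pi.star_apply]
  refine Finset.sum_congr rfl fun i _ => ?_
  congr 1
  refine Finset.sum_congr rfl fun j _ => ?_
  congr 1
  exact hG' i j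

theorem Lz.posData (h : Lz G A e f l) : PosData G (TT G A e f) (WW G e f) where
  map := h.T_mem
  pos := fun x hx h0 => h.pos x h0 hx.1 hx.2
  iso := fun x hx => by
    rw [h.T_eq x hx]
    have h1 : star (A.mulVec x) = A.mulVec (star x) := by
      have hA' : ∀ i j, (starRingEnd ℂ) (A i j) = A i j :=
        fun i j => congrFun (congrFun h.realA i) j
      ext i
      simp only [Pi.star_apply, Matrix.mulVec, dotProduct, star_sum, star_mul']
      refine Finset.sum_congr rfl fun j _ => ?_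
      congr 1
      exact hA' i j
    rw [h1, h.bfA]
  herm := fun x y => by
    rw [bf_star G h.realG, star_star, bf_comm G h.symm]

theorem E1_real (hG : G.map (starRingEnd ℂ) = G) (he : star e = e) (hf : star f = f) :
    (E1 G e f).map (starRingEnd ℂ) = E1 G e f := by
  have hG' : ∀ i j, (starRingEnd ℂ) (G i j) = G i j := fun i j => congrFun (congrFun hG i) j
  have he' : ∀ i, (starRingEnd ℂ) (e i) = e i := fun i => congrFun he i
  have hf' : ∀ i, (starRingEnd ℂ) (f i) = f i := fun i => congrFun hf i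
  have hb : (starRingEnd ℂ) (bf G e f) = bf G e f := by
    have h1 := bf_star G hG e f
    rw [he, hf] at h1
    exact h1
  ext i j
  simp only [E1, Matrix.map_apply, Matrix.vecMulVec_apply, Pi.smul_apply, smul_eq_mul, map_mul,
    map_inv₀, he', hb, Matrix.vecMul, dotProduct, map_sum, hG', hf']

theorem Lz.T_real (h : Lz G A e f l) : (TT G A e f).map (starRingEnd ℂ) = TT G A e f := by
  unfold TT
  rw [Matrix.map_mul, h.realA, Matrix.map_sub (starRingEnd ℂ) (fun a b => map_sub _ a b),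
    Matrix.map_sub (starRingEnd ℂ) (fun a b => map_sub _ a b), E1_real h.realG h.reale h.realf,
    E1_real h.realG h.realf h.reale, Matrix.map_one _ (map_zero _) (map_one _)]

theorem mat_ext (M N : Matrix (Fin n) (Fin n) ℂ) (h : ∀ x, M.mulVec x = N.mulVec x) : M = N :=
  Matrix.ext_of_mulVec_single fun _ => h _

/-- determinants -/
theorem Lz.det_eq (h : Lz G A e f l) (z : ℂ) (hz : z ≠ 0) :
    (z • (1 : Matrix (Fin n) (Fin n) ℂ) - A).det * z ^ 2 =
      (z • (1 : Matrix (Fin n) (Fin n) ℂ) - TT G A e f).det * ((z - l) * (z - (l : ℂ)⁻¹)) := by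
  have hd : ∀ (s : ℂ) (a b : Fin n → ℂ), bf G a b ≠ 0 → bf G b a = bf G a b →
      (1 - s • E1 G a b).det = 1 - s := by
    intro s a b hab hba
    have h1 : (1 : Matrix (Fin n) (Fin n) ℂ) - s • E1 G a b =
        1 + Matrix.replicateCol Unit (-s • (bf G a b)⁻¹ • a) *
          Matrix.replicateRow Unit (Matrix.vecMul b G) := by
      rw [← Matrix.vecMulVec_eq]
      ext i j
      simp only [E1, Matrix.sub_apply, Matrix.add_apply, Matrix.smul_apply,
        Matrix.vecMulVec_apply, Pi.smul_apply, smul_eq_mul]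
      ring
    rw [h1, Matrix.det_one_add_replicateCol_mul_replicateRow, ← Matrix.dotProduct_mulVec]
    have h2 : b ⬝ᵥ G.mulVec (-s • (bf G a b)⁻¹ • a) = -s * ((bf G a b)⁻¹ * bf G b a) := by
      have h3 : bf G b (-s • (bf G a b)⁻¹ • a) = -s * ((bf G a b)⁻¹ * bf G b a) := by
        rw [bf_smul_right, bf_smul_right]
      exact h3
    rw [h2, hba, inv_mul_cancel₀ hab]
    ring
  have hne := h.ne
  have hsym := bf_comm G h.symm f e
  have k1 : (TT G A e f) * E1 G e f = 0 := by
    refine mat_ext _ _ fun x => ?_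
    rw [← Matrix.mulVec_mulVec, E1_mulVec, Matrix.mulVec_smul, TT_mulVec G A h.symm, h.ee, hsym,
      div_self hne, Matrix.zero_mulVec]
    simp
  have k2 : (TT G A e f) * E1 G f e = 0 := by
    refine mat_ext _ _ fun x => ?_
    rw [← Matrix.mulVec_mulVec, E1_mulVec, Matrix.mulVec_smul, TT_mulVec G A h.symm, h.ff,
      div_self hne, Matrix.zero_mulVec]
    simp
  have k3 : E1 G e f * E1 G f e = 0 := by
    refine mat_ext _ _ fun x => ?_
    rw [← Matrix.mulVec_mulVec, E1_mulVec, E1_mulVec, bf_smul_right, h.ff, Matrix.zero_mulVec]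
    simp
  have k4 : A = TT G A e f + (l : ℂ) • E1 G e f + (l : ℂ)⁻¹ • E1 G f e := by
    have k5 : A * E1 G e f = (l : ℂ) • E1 G e f := by
      refine Matrix.ext_of_mulVec_single fun i => ?_
      rw [← Matrix.mulVec_mulVec, E1_mulVec, Matrix.mulVec_smul, h.ev, Matrix.smul_mulVec,
        E1_mulVec, smul_comm]
    have k6 : A * E1 G f e = (l : ℂ)⁻¹ • E1 G f e := by
      refine Matrix.ext_of_mulVec_single fun i => ?_
      rw [← Matrix.mulVec_mulVec, E1_mulVec, Matrix.mulVec_smul, h.ev', Matrix.smul_mulVec,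
        E1_mulVec, smul_comm]
    rw [← k5, ← k6]
    unfold TT
    rw [Matrix.mul_sub, Matrix.mul_sub, mul_one]
    abel
  have k7 : z • (1 : Matrix (Fin n) (Fin n) ℂ) - A =
      (z • (1 : Matrix (Fin n) (Fin n) ℂ) - TT G A e f) * (1 - ((l : ℂ) / z) • E1 G e f) *
        (1 - ((l : ℂ)⁻¹ / z) • E1 G f e) := by
    have k8 : (z • (1 : Matrix (Fin n) (Fin n) ℂ) - TT G A e f) *
        (1 - ((l : ℂ) / z) • E1 G e f) =
        z • (1 : Matrix (Fin n) (Fin n) ℂ) - TT G A e f - (l : ℂ) • E1 G e f := by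
      rw [Matrix.mul_sub, mul_one, Matrix.mul_smul, Matrix.sub_mul, k1, sub_zero, Matrix.smul_mul,
        one_mul, smul_smul, div_mul_cancel₀ _ hz]
    rw [k8, Matrix.mul_sub, mul_one, Matrix.mul_smul, Matrix.sub_mul, Matrix.sub_mul, k2,
      Matrix.smul_mul, Matrix.smul_mul, one_mul, k3, smul_zero, sub_zero, sub_zero, smul_smul,
      div_mul_cancel₀ _ hz]
    conv_lhs => rw [k4]
    abel
  rw [k7, Matrix.det_mul, Matrix.det_mul, hd _ e f hne hsym, hd _ f e (by rw [hsym]; exact hne)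
    hsym.symm]
  field_simp

end

end Pool.Agent.Y820.LB
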