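import Mathlib
import Pool.Agent.Y820.LB.Lor3

/-!
# The real form of the theorem on isometries of Lorentzian lattices
-/

set_option autoImplicit false

namespace Pool.Agent.Y820.LB

noncomputable section

variable {n : ℕ}

/-- the real bilinear form of an integer matrix -/
def rf (G : Matrix (Fin n) (Fin n) ℤ) (x y : Fin n → ℝ) : ℝ := ∑ i, ∑ j, x i * (G i j : ℝ) * y j

theorem bf_eq (G : Matrix (Fin n) (Fin n) ℤ) (x y : Fin n → ℂ) :
    bf (G.map (Int.castRingHom ℂ)) x y = ∑ i, ∑ j, x i * (G i j : ℂ) * y j := by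
  unfold bf
  simp only [dotProduct, Matrix.mulVec, Matrix.map_apply, Finset.mul_sum, eq_intCast, mul_assoc]

theorem bf_ofReal (G : Matrix (Fin n) (Fin n) ℤ) (x y : Fin n → ℝ) :
    bf (G.map (Int.castRingHom ℂ)) (fun i => (x i : ℂ)) (fun i => (y i : ℂ)) = (rf G x y : ℂ) := by
  rw [bf_eq]
  unfold rf
  push_cast
  rfl

theorem rf_comm (G : Matrix (Fin n) (Fin n) ℤ) (hG : G.transpose = G) (x y : Fin n → ℝ) :
    rf G x y = rf G y x := by
  unfold rf
  rw [Finset.sum_comm]
  refine Finset.sum_congr rfl fun i _ => Finset.sum_congr rfl fun j _ => ?_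
  have h1 : G j i = G i j := congrFun (congrFun hG i) j
  rw [h1]
  ring

theorem lz_of (G A : Matrix (Fin n) (Fin n) ℤ) (e f : Fin n → ℝ) (l : ℝ)
    (h1 : G.transpose = G) (h2 : A.transpose * G * A = G) (h3 : 1 < l)
    (h4 : (A.map (Int.castRingHom ℝ)).mulVec e = l • e)
    (h5 : (A.map (Int.castRingHom ℝ)).mulVec f = l⁻¹ • f) (h6 : rf G e f ≠ 0)
    (h7 : ∀ x : Fin n → ℝ, x ≠ 0 → rf G e x = 0 → rf G f x = 0 → 0 < rf G x x) :
    Lz (G.map (Int.castRingHom ℂ)) (A.map (Int.castRingHom ℂ)) (fun i => (e i : ℂ))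
      (fun i => (f i : ℂ)) l where
  symm := by
    rw [← Matrix.transpose_map, h1]
  isom := by
    rw [← Matrix.transpose_map, ← Matrix.map_mul, ← Matrix.map_mul, h2]
  one_lt := h3
  ev := by
    ext i
    have h8 := congrArg (fun x : ℝ => (x : ℂ)) (congrFun h4 i)
    simp only [Matrix.mulVec, dotProduct, Matrix.map_apply, eq_intCast, Pi.smul_apply,
      smul_eq_mul] at h8 ⊢
    push_cast at h8
    exact h8
  ev' := by
    ext i
    have h8 := congrArg (fun x : ℝ => (x : ℂ)) (congrFun h5 i)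
    simp only [Matrix.mulVec, dotProduct, Matrix.map_apply, eq_intCast, Pi.smul_apply,
      smul_eq_mul] at h8 ⊢
    push_cast at h8
    exact h8
  ne := by
    rw [bf_ofReal]
    exact_mod_cast h6
  realG := by
    ext i j
    simp
  realA := by
    ext i j
    simp
  reale := by
    ext i
    simp
  realf := by
    ext i
    simp
  pos := by
    intro x hx hxe hxf
    set a : Fin n → ℝ := fun i => (x i).re with ha
    set b : Fin n → ℝ := fun i => (x i).im with hb
    have hxab : ∀ i, x i = (a i : ℂ) + (b i : ℂ) * Complex.I := fun i =>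
      (Complex.re_add_im (x i)).symm
    have hlin : ∀ y : Fin n → ℝ, bf (G.map (Int.castRingHom ℂ)) (fun i => (y i : ℂ)) x =
        (rf G y a : ℂ) + (rf G y b : ℂ) * Complex.I := by
      intro y
      rw [bf_eq]
      unfold rf
      push_cast
      rw [Finset.sum_mul, ← Finset.sum_add_distrib]
      refine Finset.sum_congr rfl fun i _ => ?_
      rw [Finset.sum_mul, ← Finset.sum_add_distrib]
      refine Finset.sum_congr rfl fun j _ => ?_
      rw [hxab j]
      ring
    have hsplit : ∀ y : Fin n → ℝ, bf (G.map (Int.castRingHom ℂ)) (fun i => (y i : ℂ)) x = 0 →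
        rf G y a = 0 ∧ rf G y b = 0 := by
      intro y hy
      rw [hlin y] at hy
      have h8 := congrArg Complex.re hy
      have h9 := congrArg Complex.im hy
      simp at h8 h9
      exact ⟨h8, h9⟩
    obtain ⟨ea, eb⟩ := hsplit e hxe
    obtain ⟨fa, fb⟩ := hsplit f hxf
    have hval : (bf (G.map (Int.castRingHom ℂ)) (star x) x).re = rf G a a + rf G b b := by
      rw [bf_eq]
      unfold rf
      rw [Complex.re_sum, ← Finset.sum_add_distrib]
      have h10 : ∀ i, (∑ j, (star x) i * (G i j : ℂ) * x j).re =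
          ∑ j, (a i * (G i j : ℝ) * a j + b i * (G i j : ℝ) * b j) := by
        intro i
        rw [Complex.re_sum]
        refine Finset.sum_congr rfl fun j _ => ?_
        simp only [Pi.star_apply, Complex.star_def, Complex.mul_re, Complex.mul_im,
          Complex.conj_re, Complex.conj_im, Complex.intCast_re, Complex.intCast_im, ha, hb]
        ring
      rw [Finset.sum_congr rfl fun i _ => h10 i]
      refine Finset.sum_congr rfl fun i _ => ?_
      rw [Finset.sum_add_distrib]
    rw [hval]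
    have hnn : ∀ y : Fin n → ℝ, rf G e y = 0 → rf G f y = 0 → 0 ≤ rf G y y := by
      intro y hy1 hy2
      by_cases h0 : y = 0
      · rw [h0]
        simp [rf]
      · exact (h7 y h0 hy1 hy2).le
    by_cases ha0 : a = 0
    · have hb0 : b ≠ 0 := by
        intro hb0
        apply hx
        ext i
        rw [hxab i, ha0, hb0]
        simp
      have h11 := h7 b hb0 eb fb
      have h12 := hnn a ea fa
      linarith
    · have h11 := h7 a ha0 ea fa
      have h12 := hnn b eb fb
      linarith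

/-- **Lehmer's inequality for isometries of Lorentzian lattices**, real form. -/
theorem lorentz_real (L : ℝ) : ∃ c : ℝ, 1 < c ∧ ∀ (n : ℕ) (G A : Matrix (Fin n) (Fin n) ℤ)
    (e f : Fin n → ℝ) (l : ℝ) (v : Fin n → ℤ),
    G.transpose = G → A.transpose * G * A = G → 1 < l →
    (A.map (Int.castRingHom ℝ)).mulVec e = l • e →
    (A.map (Int.castRingHom ℝ)).mulVec f = l⁻¹ • f →
    (∀ x : Fin n → ℝ, x ≠ 0 → rf G e x = 0 → rf G f x = 0 → 0 < rf G x x) →
    rf G (fun i => (v i : ℝ)) (fun i => (v i : ℝ)) ≤ L →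
    rf G e (fun i => (v i : ℝ)) * rf G f (fun i => (v i : ℝ)) ≠ 0 →
    |rf G e (fun i => (v i : ℝ)) * rf G f (fun i => (v i : ℝ))| ≤ L * |rf G e f| → c ≤ l := by
  obtain ⟨c, hc, h⟩ := lorentz_gap L
  refine ⟨c, hc, fun n G A e f l v h1 h2 h3 h4 h5 h7 hq hr0 hrL => ?_⟩
  have h6 : rf G e f ≠ 0 := by
    intro h0
    rw [h0, abs_zero, mul_zero] at hrL
    exact hr0 (abs_eq_zero.mp (le_antisymm hrL (abs_nonneg _)))
  have hL := lz_of G A e f l h1 h2 h3 h4 h5 h6 h7
  have hv : (fun i => (v i : ℂ)) = fun i => (((v i : ℝ)) : ℂ) := by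
    ext i
    push_cast
    rfl
  refine h n G A _ _ l v (rf G (fun i => (v i : ℝ)) (fun i => (v i : ℝ)))
    (rf G e (fun i => (v i : ℝ)) * rf G f (fun i => (v i : ℝ)) / rf G e f) hL ?_ hq ?_ ?_ ?_
  · rw [hv, bf_ofReal]
  · unfold rho
    rw [hv, bf_ofReal, bf_ofReal, bf_ofReal]
    push_cast
    rfl
  · exact div_ne_zero hr0 h6
  · rw [abs_div, div_le_iff₀ (abs_pos.mpr h6)]
    exact hrL

end

end Pool.Agent.Y820.LB
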