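import Mathlib
import Pool.Agent.Y820.LB.Adapt2

/-!
# Norm conditions written with sums of squares
-/

set_option autoImplicit false

namespace Pool.Agent.Y820.LB

noncomputable section

variable {n : ℕ}

theorem norm_act_sq (W : Matrix (Fin n) (Fin n) ℂ) (x : EuclideanSpace ℂ (Fin n)) :
    ‖act W x‖ ^ 2 = ∑ i, ‖(W.mulVec (WithLp.ofLp x)) i‖ ^ 2 := by
  rw [EuclideanSpace.norm_sq_eq]
  refine Finset.sum_congr rfl fun i _ => ?_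
  rw [act_apply]
  rfl

theorem op_le (W : Matrix (Fin n) (Fin n) ℂ) (a : ℝ) (ha : 0 ≤ a)
    (h : ∀ x : Fin n → ℂ, ∑ i, ‖(W.mulVec x) i‖ ^ 2 ≤ a ^ 2 * ∑ i, ‖x i‖ ^ 2) : ‖act W‖ ≤ a := by
  refine ContinuousLinearMap.opNorm_le_bound _ ha fun x => ?_
  have h1 := h (WithLp.ofLp x)
  rw [← norm_act_sq, ← EuclideanSpace.norm_sq_eq, ← mul_pow] at h1
  exact (sq_le_sq₀ (norm_nonneg _) (by positivity)).mp h1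

theorem act_le (U W : Matrix (Fin n) (Fin n) ℂ)
    (h : ∀ x : Fin n → ℂ, ∑ i, ‖(U.mulVec x) i‖ ^ 2 ≤ ∑ i, ‖(W.mulVec x) i‖ ^ 2)
    (x : EuclideanSpace ℂ (Fin n)) : ‖act U x‖ ≤ ‖act W x‖ := by
  have h1 := h (WithLp.ofLp x)
  rw [← norm_act_sq, ← norm_act_sq] at h1
  exact (sq_le_sq₀ (norm_nonneg _) (norm_nonneg _)).mp h1

theorem cond_le_of (S T : Matrix (Fin n) (Fin n) ℂ) (L a b : ℝ) (ha : 0 ≤ a) (hb : 0 ≤ b)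
    (hab : a * b ≤ L)
    (hS : ∀ x : Fin n → ℂ, ∑ i, ‖(S.mulVec x) i‖ ^ 2 ≤ a ^ 2 * ∑ i, ‖x i‖ ^ 2)
    (hT : ∀ x : Fin n → ℂ, ∑ i, ‖(T.mulVec x) i‖ ^ 2 ≤ b ^ 2 * ∑ i, ‖x i‖ ^ 2) :
    ‖act S‖ * ‖act T‖ ≤ L :=
  (mul_le_mul (op_le S a ha hS) (op_le T b hb hT) (norm_nonneg _) ha).trans hab

theorem ad_of (L : ℝ) (A : Matrix (Fin n) (Fin n) ℤ) (S T B E : Matrix (Fin n) (Fin n) ℂ)
    (a b : ℝ) (h1 : S * T = 1) (h2 : A.map (Int.castRingHom ℂ) = S * B * T)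
    (ha : 0 ≤ a) (hb : 0 ≤ b) (hab : a * b ≤ L)
    (hS : ∀ x : Fin n → ℂ, ∑ i, ‖(S.mulVec x) i‖ ^ 2 ≤ a ^ 2 * ∑ i, ‖x i‖ ^ 2)
    (hT : ∀ x : Fin n → ℂ, ∑ i, ‖(T.mulVec x) i‖ ^ 2 ≤ b ^ 2 * ∑ i, ‖x i‖ ^ 2)
    (h3 : E.conjTranspose = E) (h4 : E * E = E) (h5 : B * E = E * B)
    (h6 : ∀ x : Fin n → ℂ, ∑ i, ‖((B * E).mulVec x) i‖ ^ 2 ≤ ∑ i, ‖(E.mulVec x) i‖ ^ 2)
    (h7 : ∀ x : Fin n → ℂ, ∑ i, ‖((1 - E).mulVec x) i‖ ^ 2 ≤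
      ∑ i, ‖((B * (1 - E)).mulVec x) i‖ ^ 2) : Ad A S T B E L :=
  ⟨h1, h2, h3, h4, h5, act_le _ _ h6, act_le _ _ h7, cond_le_of S T L a b ha hb hab hS hT⟩

end

end Pool.Agent.Y820.LB
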