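import Mathlib
import Pool.Agent.Y820.LB.Adapt2
import Pool.Agent.W242.IM.Final2

/-!
# Closure of the measures of dominated pairs
-/

set_option autoImplicit false

namespace Pool.Agent.Y820.LB

open MeasureTheory Polynomial Filter Topology
open Pool.Agent.H261R2.CM
open Pool.Agent.W242.IM (ae_eval_ne allM closure_of_LL m1_mem_LL)

noncomputable section

/-- coprime pairs of bounded height have a common multiplier of measure close to one that makes
them of bounded length -/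
theorem pair_structure (K ε : ℝ) (hε : 0 < ε) : ∃ N : ℕ, ∀ A B : ℤ[X], A ≠ 0 → B ≠ 0 →
    IsRelPrime A B → mx1 A B ≤ K →
    ∃ Φ : ℤ[X], Φ ≠ 0 ∧ m1 Φ ≤ 1 + ε ∧ len (A * Φ) ≤ N ∧ len (B * Φ) ≤ N := by
  by_contra hcon
  push Not at hcon
  choose A B hA hB hAB hK hno using hcon
  obtain ⟨k, e, C, D, hk, hC, hD, hCD, he, hrel, _, _⟩ := pairs_compact_general A B hA hB hAB K hK
  obtain ⟨Q, hQ, hQlim⟩ := limit_general C D hC hD hCD (hyperfilter ℕ) e he A B hA hB hAB hrel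
  have hle : (hyperfilter ℕ : Filter ℕ) ≤ atTop := by
    rw [← Nat.cofinite_eq_atTop]
    exact hyperfilter_le_cofinite
  set L1 : ℤ := ∑ s ∈ C.support, |C.coeff s| with hL1
  set L2 : ℤ := ∑ s ∈ D.support, |D.coeff s| with hL2
  have hbig : ∀ᶠ n : ℕ in (hyperfilter ℕ : Filter ℕ), max L1 L2 ≤ (n : ℤ) := by
    have h1 : ∀ᶠ n : ℕ in atTop, max L1 L2 ≤ (n : ℤ) := by
      filter_upwards [eventually_ge_atTop (max L1 L2).toNat] with n hn
      have := Int.self_le_toNat (max L1 L2)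
      omega
    exact hle h1
  have hsmall : ∀ᶠ n in (hyperfilter ℕ : Filter ℕ), Real.log (m1 (Q n)) < Real.log (1 + ε) :=
    hQlim.eventually_lt_const (Real.log_pos (by linarith))
  obtain ⟨n, h1, h2, h3⟩ := (hQ.and (hbig.and hsmall)).exists
  obtain ⟨hQ0, hCn, hDn⟩ := h1
  have hQ1 : 1 ≤ m1 (Q n) := I1_one_le_m1 hQ0
  have hm : m1 (Q n) ≤ 1 + ε :=
    ((Real.log_lt_log_iff (by linarith) (by linarith)).mp h3).le
  have h7 : len (A n * Q n) ≤ n := by
    rw [mul_comm, ← hCn]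
    exact (len_spec_le _ _).trans ((le_max_left _ _).trans h2)
  have h8 : len (B n * Q n) ≤ n := by
    rw [mul_comm, ← hDn]
    exact (len_spec_le _ _).trans ((le_max_right _ _).trans h2)
  exact absurd h8 (not_le.mpr (hno n (Q n) hQ0 hm h7))

/-- the pairs considered -/
def Good (c : ℝ) (P : ℤ[X]) : Prop := P.Monic ∧ ∃ (Q : ℤ[X]) (F : ℝ → ℂ),
  Dom (fun t => ‖F t‖) c ∧ (∀ᵐ t : ℝ, ev1 Q t = ev1 P t * F t) ∧
    ∀ z : ℂ, 1 < ‖z‖ → (toC P).eval z = 0 → (toC Q).eval z ≠ 0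

theorem m1_of_no_root (D P : ℤ[X]) (hP : P.Monic) (hD : D ∣ P)
    (h : ∀ z : ℂ, 1 < ‖z‖ → (toC D).eval z ≠ 0) : m1 D = 1 := by
  obtain ⟨R, hR⟩ := hD
  have h1 : D.leadingCoeff * R.leadingCoeff = 1 := by
    rw [← leadingCoeff_mul, ← hR]
    exact hP
  have hD0 : D ≠ 0 := by
    rintro rfl
    rw [leadingCoeff_zero, zero_mul] at h1
    exact zero_ne_one h1
  have h0 : toC D ≠ 0 := D_toC_ne D hD0
  have h2 : ((toC D).roots.map fun a => max 1 ‖a‖) = (toC D).roots.map fun _ => (1 : ℝ) := by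
    refine Multiset.map_congr rfl fun z hz => ?_
    refine max_eq_left ?_
    by_contra hcon
    push Not at hcon
    exact h z hcon ((mem_roots h0).mp hz)
  unfold m1
  rw [mahlerMeasure_eq_leadingCoeff_mul_prod_roots, h2]
  have h4 : (toC D).leadingCoeff = ((D.leadingCoeff : ℤ) : ℂ) := by
    unfold toC
    rw [leadingCoeff_map_of_injective (RingHom.injective_int _)]
    rfl
  rw [h4, Complex.norm_intCast]
  have h5 : |D.leadingCoeff| = 1 := Int.isUnit_iff_abs_eq.mp (IsUnit.of_mul_eq_one _ h1)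
  rw [← Int.cast_abs, h5]
  simp

theorem good_pair (c : ℝ) (P : ℤ[X]) (h : Good c P) : m1 P = 1 ∨
    ∃ D A B : ℤ[X], P = D * A ∧ A ≠ 0 ∧ B ≠ 0 ∧ IsRelPrime A B ∧ m1 D = 1 ∧ m1 P = m1 A ∧
      mx1 A B ≤ Real.log (m1 A) + c := by
  obtain ⟨hP, Q, F, hD, hF, hz⟩ := h
  by_cases hQ : Q = 0
  · left
    refine m1_of_no_root P P hP dvd_rfl fun z h1 h2 => hz z h1 h2 ?_
    rw [hQ]
    simp [toC]
  right
  obtain ⟨A, B, D, h1, h2, h3, h4, h5, h6, h7, h8⟩ := reduce P Q hP.ne_zero hQ F c hD hF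
  have hm : m1 D = 1 := by
    refine m1_of_no_root D P hP ⟨A, h1⟩ fun z h9 h10 => hz z h9 ?_ ?_
    · rw [h1, toC_mul, eval_mul, h10, zero_mul]
    · rw [h2, toC_mul, eval_mul, h10, zero_mul]
  refine ⟨D, A, B, h1, h4, h5, h6, hm, ?_, h8⟩
  rw [h7, hm, one_mul]

theorem m1_one : m1 (1 : ℤ[X]) = 1 := by
  unfold m1 toC
  rw [Polynomial.map_one, mahlerMeasure_one]

theorem good_closure (c : ℝ) (T : Set ℝ) (hT : ∀ x ∈ T, ∃ P : ℤ[X], Good c P ∧ x = m1 P) :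
    closure T ⊆ allM ∧ ∀ B : ℝ, ∃ m : ℕ, ∀ x ∈ derivedSet^[m] T, B ≤ x := by
  refine closure_of_LL T fun B => ⟨max 0 (Real.log (max B 1) + c), ?_⟩
  rintro x ⟨hx, hxB⟩
  obtain ⟨P, hP, rfl⟩ := hT x hx
  rcases good_pair c P hP with h1 | ⟨D, A, C, h1, h2, h3, h4, h5, h6, h7⟩
  · have h2 : mx1 (1 : ℤ[X]) 1 ≤ max 0 (Real.log (max B 1) + c) := by
      refine le_trans (le_of_eq ?_) (le_max_left _ _)
      unfold mx1
      simp [ev1_one]
    have h3 := m1_mem_LL (1 : ℤ[X]) 1 one_ne_zero one_ne_zero isRelPrime_one_left _ h2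
    rw [m1_one] at h3
    rw [h1]
    exact h3
  · rw [h6] at hxB ⊢
    refine m1_mem_LL A C h2 h3 h4 _ (le_trans ?_ (le_max_right _ _))
    have h8 : 0 < m1 A := lt_of_lt_of_le one_pos (one_le_m1 h2)
    have h9 : Real.log (m1 A) ≤ Real.log (max B 1) :=
      Real.log_le_log h8 (le_max_of_le_left (Set.mem_Iio.mp hxB).le)
    linarith

theorem good_structure (c B ε : ℝ) (hε : 0 < ε) : ∃ N : ℕ, ∀ P : ℤ[X], Good c P → m1 P ≤ B →
    ∃ D A Φ : ℤ[X], P = D * A ∧ m1 D = 1 ∧ Φ ≠ 0 ∧ m1 Φ ≤ 1 + ε ∧ len (A * Φ) ≤ N := by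
  obtain ⟨N, hN⟩ := pair_structure (Real.log (max B 1) + c) ε hε
  refine ⟨max N 1, fun P hP hB => ?_⟩
  rcases good_pair c P hP with h1 | ⟨D, A, C, h1, h2, h3, h4, h5, h6, h7⟩
  · refine ⟨P, 1, 1, (mul_one P).symm, h1, one_ne_zero, ?_, ?_⟩
    · rw [m1_one]
      linarith
    · have h2 : len (1 * 1 : ℤ[X]) ≤ 1 := by
        rw [mul_one]
        have h3 := len_monomial_le 0 1
        rw [monomial_zero_one, abs_one] at h3
        exact h3
      refine h2.trans ?_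
      push_cast
      exact le_max_right _ _
  · rw [h6] at hB
    have h8 : 0 < m1 A := lt_of_lt_of_le one_pos (one_le_m1 h2)
    have h9 : Real.log (m1 A) ≤ Real.log (max B 1) :=
      Real.log_le_log h8 (le_max_of_le_left hB)
    obtain ⟨Φ, g1, g2, g3, g4⟩ := hN A C h2 h3 h4 (by linarith)
    refine ⟨D, A, Φ, h1, h5, g1, g2, g3.trans ?_⟩
    push_cast
    exact le_max_left _ _

end

end Pool.Agent.Y820.LB
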